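import Pool.Agent.Helper82.GD.Eval

/-!
# Stone-Weierstrass on the rotation group and on the sphere
-/

namespace Pool.Agent.Helper82.GD

open MvPolynomial Filter Topology

/-- Stone-Weierstrass in coordinates. -/
theorem sw_general {X ι : Type*} [TopologicalSpace X] [CompactSpace X] (f : ι → C(X, ℝ))
    (hsep : ∀ x y, (∀ i, f i x = f i y) → x = y) (Φ : C(X, ℝ)) {ε : ℝ} (hε : 0 < ε) :
    ∃ q : MvPolynomial ι ℝ, ∀ x, |Φ x - MvPolynomial.eval (fun i => f i x) q| < ε := by
  let A : Subalgebra ℝ C(X, ℝ) := (MvPolynomial.aeval f).range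
  have hA : A.SeparatesPoints := by
    intro x y hxy
    have : ∃ i, f i x ≠ f i y := by
      by_contra hcon
      push Not at hcon
      exact hxy (hsep x y hcon)
    obtain ⟨i, hi⟩ := this
    exact ⟨f i, ⟨f i, ⟨MvPolynomial.X i, by simp⟩, rfl⟩, hi⟩
  obtain ⟨⟨g, q, hq⟩, hg⟩ := ContinuousMap.exists_mem_subalgebra_near_continuousMap_of_separatesPoints A hA Φ ε hε
  refine ⟨q, fun x => ?_⟩
  have h1 := (ContinuousMap.norm_lt_iff _ hε).1 hg x
  have h2 : g x = MvPolynomial.eval (fun i => f i x) q := by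
    have hq' : (MvPolynomial.aeval f) q = g := hq
    rw [← hq']
    have : ∀ q : MvPolynomial ι ℝ, ((MvPolynomial.aeval f) q : C(X, ℝ)) x = MvPolynomial.eval (fun i => f i x) q := by
      intro q
      induction q using MvPolynomial.induction_on with
      | C a => simp
      | add p q hp hq => simp [hp, hq]
      | mul_X p s hp => simp [hp]
    exact this q
  rw [← h2, abs_sub_comm]
  simpa using h1

/-- Expression of the matrix entries through the frame variables. -/
noncomputable def subst (s : Idx) : PR :=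
  if s.1 = 0 then X (0, s.2) else
    if s.1 = 1 then C (1 / 2) * (X (1, s.2) + X (2, s.2)) else C (Complex.I / 2) * (X (1, s.2) - X (2, s.2))

theorem ev_subst (s : Idx) (g : Rot) : ev (subst s) g = (g.1 s.1 s.2 : ℂ) := by
  obtain ⟨a, j⟩ := s
  fin_cases a
  · simp [subst]
  · simp [subst]
    ring
  · simp [subst]
    linear_combination (-(g.1 2 j : ℂ)) * Complex.I_mul_I

/-- Real polynomials in the matrix entries as frame polynomials. -/
noncomputable def toPR (q : MvPolynomial Idx ℝ) : PR := eval₂ (C.comp (algebraMap ℝ ℂ)) subst q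

theorem ev_toPR (q : MvPolynomial Idx ℝ) (g : Rot) :
    ev (toPR q) g = ((MvPolynomial.eval (fun s : Idx => g.1 s.1 s.2) q : ℝ) : ℂ) := by
  unfold toPR
  induction q using MvPolynomial.induction_on with
  | C a => simp
  | add p q hp hq => simp only [eval₂_add, ev_add, hp, hq, map_add, Complex.ofReal_add]
  | mul_X p s hp => simp only [eval₂_mul, eval₂_X, ev_mul, hp, ev_subst, map_mul, eval_X, Complex.ofReal_mul]

/-- Real polynomials in the position vector as frame polynomials. -/
noncomputable def toPR0 (q : MvPolynomial (Fin 3) ℝ) : PR :=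
  eval₂ (C.comp (algebraMap ℝ ℂ)) (fun j => (X (0, j) : PR)) q

theorem ev_toPR0 (q : MvPolynomial (Fin 3) ℝ) (g : Rot) :
    ev (toPR0 q) g = ((MvPolynomial.eval (fun j => g.1 0 j) q : ℝ) : ℂ) := by
  unfold toPR0
  induction q using MvPolynomial.induction_on with
  | C a => simp
  | add p q hp hq => simp only [eval₂_add, ev_add, hp, hq, map_add, Complex.ofReal_add]
  | mul_X p s hp => simp only [eval₂_mul, eval₂_X, ev_mul, hp, ev_X0, map_mul, eval_X, Complex.ofReal_mul]

theorem hasWt_toPR0 (q : MvPolynomial (Fin 3) ℝ) : HasWt 0 (toPR0 q) := by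
  unfold toPR0
  induction q using MvPolynomial.induction_on with
  | C a => simpa using HasWt.C (a : ℂ)
  | add p q hp hq => rw [eval₂_add]; exact hp.add hq
  | mul_X p s hp =>
    rw [eval₂_mul, eval₂_X]
    simpa using hp.mul (HasWt.X0 s)

/-- Polynomials are dense in the continuous functions of the frame. -/
theorem approx_rot (Φ : Rot → ℝ) (hΦ : Continuous Φ) {ε : ℝ} (hε : 0 < ε) :
    ∃ p : PR, ∀ g, ‖(Φ g : ℂ) - ev p g‖ < ε := by
  obtain ⟨q, hq⟩ := sw_general (X := Rot) (ι := Idx) (fun s => ⟨fun g => g.1 s.1 s.2, continuous_entry s.1 s.2⟩)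
    (fun g h hgh => Subtype.ext (by ext i j; exact hgh (i, j))) ⟨Φ, hΦ⟩ hε
  refine ⟨toPR q, fun g => ?_⟩
  rw [ev_toPR, ← Complex.ofReal_sub, Complex.norm_real]
  exact hq g

/-- Polynomials in the position are dense in the continuous functions of the position. -/
theorem approx_base (b : E3 → ℝ) (hb : Continuous b) {ε : ℝ} (hε : 0 < ε) :
    ∃ r : PR, HasWt 0 r ∧ ∀ g, ‖(b (row g 0) : ℂ) - ev r g‖ < ε := by
  obtain ⟨q, hq⟩ := sw_general (X := Metric.sphere (0 : E3) 1) (ι := Fin 3)
    (fun j => ⟨fun x => x.1 j, by fun_prop⟩)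
    (fun x y hxy => Subtype.ext (by ext i; exact hxy i)) ⟨fun x => b x.1, by fun_prop⟩ hε
  refine ⟨toPR0 q, hasWt_toPR0 q, fun g => ?_⟩
  rw [ev_toPR0, ← Complex.ofReal_sub, Complex.norm_real]
  exact hq ⟨row g 0, by simp [norm_row]⟩

end Pool.Agent.Helper82.GD
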