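import Pool.Agent.Helper82.GD.Geod
import Pool.Agent.Helper82.GD.Approx

/-!
# Averages over families of closed geodesics and the class of equidistributed functions
-/

namespace Pool.Agent.Helper82.GD

open MeasureTheory MvPolynomial Filter Topology

/-- A finite family of curves with periods. -/
abbrev Fam := List ((ℝ → E3) × ℝ)

/-- Complex average over a family of closed geodesics. -/
noncomputable def avgC (lam : E3 → ℝ) (L : Fam) (Φ : Rot → ℂ) : ℂ :=
  (L.map fun c => ∫ t in (0 : ℝ)..c.2, Φ (frame lam c.1 t)).sum / (((L.map fun c => c.2).sum : ℝ) : ℂ)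

/-- Complex Liouville average. -/
noncomputable def LC (lam : E3 → ℝ) (Φ : Rot → ℂ) : ℂ :=
  (∫ g, Φ g * (Real.exp (2 * lam (row g 0)) : ℂ) ∂haarRot) /
    ((∫ g, Real.exp (2 * lam (row g 0)) ∂haarRot : ℝ) : ℂ)

section
variable {lam : E3 → ℝ}

theorem avgC_add (hl : ContDiff ℝ 1 lam) {L : Fam} (hL : ∀ c ∈ L, IsClosedGeodesic lam c.1 c.2)
    {Φ Ψ : Rot → ℂ} (hΦ : Continuous Φ) (hΨ : Continuous Ψ) :
    avgC lam L (fun g => Φ g + Ψ g) = avgC lam L Φ + avgC lam L Ψ := by
  unfold avgC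
  rw [← add_div]
  congr 1
  rw [← List.sum_map_add]
  congr 1
  refine List.map_congr_left fun c hc => ?_
  have hf := (hL c hc).1.continuous_frame hl
  exact intervalIntegral.integral_add ((hΦ.comp hf).intervalIntegrable _ _)
    ((hΨ.comp hf).intervalIntegrable _ _)

theorem avgC_smul (L : Fam) (a : ℂ) (Φ : Rot → ℂ) :
    avgC lam L (fun g => a * Φ g) = a * avgC lam L Φ := by
  unfold avgC
  rw [← mul_div_assoc, ← List.sum_map_mul_left]
  simp_rw [intervalIntegral.integral_const_mul]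

theorem avgC_conj (L : Fam) (Φ : Rot → ℂ) :
    avgC lam L (fun g => starRingEnd ℂ (Φ g)) = starRingEnd ℂ (avgC lam L Φ) := by
  unfold avgC
  rw [map_div₀, Complex.conj_ofReal, map_list_sum, List.map_map]
  congr 2
  refine List.map_congr_left fun c _ => ?_
  simp only [Function.comp, intervalIntegral, map_sub]
  rw [integral_conj, integral_conj]

theorem period_sum_nonneg {L : Fam} (hL : ∀ c ∈ L, IsClosedGeodesic lam c.1 c.2) :
    0 ≤ (L.map fun c => c.2).sum := by
  refine List.sum_nonneg ?_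
  intro x hx
  obtain ⟨c, hc, rfl⟩ := List.mem_map.1 hx
  exact (hL c hc).2.1.le

theorem avgC_norm_le {L : Fam} (hL : ∀ c ∈ L, IsClosedGeodesic lam c.1 c.2)
    {Φ : Rot → ℂ} {ε : ℝ} (hε : 0 ≤ ε) (h : ∀ g, ‖Φ g‖ ≤ ε) : ‖avgC lam L Φ‖ ≤ ε := by
  unfold avgC
  rw [norm_div, Complex.norm_real, Real.norm_of_nonneg (period_sum_nonneg hL)]
  have h1 : ‖(L.map fun c => ∫ t in (0 : ℝ)..c.2, Φ (frame lam c.1 t)).sum‖ ≤ ε * (L.map fun c => c.2).sum := by
    induction L with
    | nil => simp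
    | cons c L ih =>
      rw [List.map_cons, List.sum_cons, List.map_cons, List.sum_cons, mul_add]
      refine (norm_add_le _ _).trans (add_le_add ?_ (ih fun d hd => hL d (List.mem_cons_of_mem _ hd)))
      have hT := (hL c List.mem_cons_self).2.1
      have := intervalIntegral.norm_integral_le_of_norm_le_const (a := 0) (b := c.2) (C := ε)
        (f := fun t => Φ (frame lam c.1 t)) fun t _ => h _
      rwa [sub_zero, abs_of_pos hT] at this
  rcases (period_sum_nonneg hL).eq_or_lt with h0 | h0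
  · rw [← h0, div_zero]; exact hε
  · rw [div_le_iff₀ h0]; exact h1

theorem continuous_expl (hl : Continuous lam) : Continuous fun g : Rot => Real.exp (2 * lam (row g 0)) :=
  Real.continuous_exp.comp (continuous_const.mul (hl.comp (continuous_row 0)))

theorem LC_den_pos (hl : Continuous lam) : 0 < ∫ g, Real.exp (2 * lam (row g 0)) ∂haarRot := by
  refine Continuous.integral_pos_of_hasCompactSupport_nonneg_nonzero (continuous_expl hl)
    (HasCompactSupport.of_compactSpace _) (fun g => (Real.exp_pos _).le) (x := 1) (Real.exp_pos _).ne'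

theorem LC_add (hl : Continuous lam) {Φ Ψ : Rot → ℂ} (hΦ : Continuous Φ) (hΨ : Continuous Ψ) :
    LC lam (fun g => Φ g + Ψ g) = LC lam Φ + LC lam Ψ := by
  unfold LC
  rw [← add_div]
  congr 1
  have he : Continuous fun g : Rot => (Real.exp (2 * lam (row g 0)) : ℂ) :=
    Complex.continuous_ofReal.comp (continuous_expl hl)
  have h := integral_add (integrable_cont (hΦ.mul he)) (integrable_cont (hΨ.mul he))
  simp only [Pi.mul_apply] at h
  rw [← h]
  congr 1
  funext g
  ring

theorem LC_smul (a : ℂ) (Φ : Rot → ℂ) : LC lam (fun g => a * Φ g) = a * LC lam Φ := by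
  unfold LC
  rw [← mul_div_assoc, ← integral_const_mul]
  congr 2
  funext g
  ring

theorem LC_conj (Φ : Rot → ℂ) : LC lam (fun g => starRingEnd ℂ (Φ g)) = starRingEnd ℂ (LC lam Φ) := by
  unfold LC
  rw [map_div₀, Complex.conj_ofReal, ← integral_conj]
  congr 2
  funext g
  rw [map_mul, Complex.conj_ofReal]

theorem LC_norm_le (hl : Continuous lam) {Φ : Rot → ℂ} {ε : ℝ} (h : ∀ g, ‖Φ g‖ ≤ ε) : ‖LC lam Φ‖ ≤ ε := by
  unfold LC
  rw [norm_div, Complex.norm_real, Real.norm_of_nonneg (LC_den_pos hl).le, div_le_iff₀ (LC_den_pos hl),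
    ← integral_const_mul]
  refine (norm_integral_le_integral_norm _).trans ?_
  refine integral_mono_of_nonneg (Eventually.of_forall fun g => norm_nonneg _)
    ((integrable_cont (continuous_expl hl)).const_mul ε) (Eventually.of_forall fun g => ?_)
  simp only [norm_mul, Complex.norm_real, Real.norm_of_nonneg (Real.exp_pos _).le]
  exact mul_le_mul_of_nonneg_right (h g) (Real.exp_pos _).le

/-- The class of continuous functions whose averages converge to the Liouville average. -/
def Good (lam : E3 → ℝ) (C : ℕ → Fam) (Φ : Rot → ℂ) : Prop :=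
  Continuous Φ ∧ Tendsto (fun k => avgC lam (C k) Φ) atTop (𝓝 (LC lam Φ))

variable {C : ℕ → Fam}

theorem Good.add (hl : ContDiff ℝ 1 lam) (hC : ∀ k, ∀ c ∈ C k, IsClosedGeodesic lam c.1 c.2) {Φ Ψ : Rot → ℂ}
    (hΦ : Good lam C Φ) (hΨ : Good lam C Ψ) : Good lam C (fun g => Φ g + Ψ g) := by
  refine ⟨hΦ.1.add hΨ.1, ?_⟩
  rw [LC_add hl.continuous hΦ.1 hΨ.1]
  simp_rw [fun k => avgC_add hl (hC k) hΦ.1 hΨ.1]
  exact hΦ.2.add hΨ.2

theorem Good.smul (a : ℂ) {Φ : Rot → ℂ} (hΦ : Good lam C Φ) : Good lam C (fun g => a * Φ g) := by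
  refine ⟨continuous_const.mul hΦ.1, ?_⟩
  rw [LC_smul]
  simp_rw [avgC_smul]
  exact hΦ.2.const_mul a

theorem Good.conj {Φ : Rot → ℂ} (hΦ : Good lam C Φ) : Good lam C (fun g => starRingEnd ℂ (Φ g)) := by
  refine ⟨Complex.continuous_conj.comp hΦ.1, ?_⟩
  rw [LC_conj]
  simp_rw [avgC_conj]
  exact (Complex.continuous_conj.tendsto _).comp hΦ.2

theorem Good.zero : Good lam C (fun _ => 0) := by
  refine ⟨continuous_const, ?_⟩
  have h1 : LC lam (fun _ => 0) = 0 := by simp [LC]
  have h2 : ∀ k, avgC lam (C k) (fun _ => 0) = 0 := fun k => by simp [avgC]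
  rw [h1]
  simp_rw [h2]
  exact tendsto_const_nhds

/-- The class is closed under uniform limits. -/
theorem Good.of_approx (hl : ContDiff ℝ 1 lam) (hC : ∀ k, ∀ c ∈ C k, IsClosedGeodesic lam c.1 c.2) {Φ : Rot → ℂ}
    (hΦ : Continuous Φ) (h : ∀ ε > 0, ∃ Ψ, Good lam C Ψ ∧ ∀ g, ‖Φ g - Ψ g‖ ≤ ε) : Good lam C Φ := by
  refine ⟨hΦ, ?_⟩
  rw [Metric.tendsto_atTop]
  intro ε hε
  obtain ⟨Ψ, hΨ, hd⟩ := h (ε / 4) (by positivity)
  obtain ⟨N, hN⟩ := (Metric.tendsto_atTop.1 hΨ.2) (ε / 4) (by positivity)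
  refine ⟨N, fun k hk => ?_⟩
  have h1 := hN k hk
  have hcd : Continuous fun g => (-1 : ℂ) * Ψ g := continuous_const.mul hΨ.1
  have e1 : avgC lam (C k) (fun g => Φ g - Ψ g) = avgC lam (C k) Φ - avgC lam (C k) Ψ := by
    have := avgC_add hl (hC k) hΦ hcd
    rw [avgC_smul] at this
    have h3 : (fun g => Φ g + (-1 : ℂ) * Ψ g) = fun g => Φ g - Ψ g := by funext g; ring
    rw [h3] at this
    rw [this]; ring
  have e2 : LC lam (fun g => Φ g - Ψ g) = LC lam Φ - LC lam Ψ := by
    have := LC_add hl.continuous hΦ hcd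
    rw [LC_smul] at this
    have h3 : (fun g => Φ g + (-1 : ℂ) * Ψ g) = fun g => Φ g - Ψ g := by funext g; ring
    rw [h3] at this
    rw [this]; ring
  have h2 := avgC_norm_le (hC k) (by positivity) hd
  have h3 := LC_norm_le hl.continuous hd
  rw [e1] at h2
  rw [e2] at h3
  rw [dist_eq_norm] at h1 ⊢
  have e3 : avgC lam (C k) Φ - LC lam Φ = (avgC lam (C k) Φ - avgC lam (C k) Ψ) +
      (avgC lam (C k) Ψ - LC lam Ψ) - (LC lam Φ - LC lam Ψ) := by ring
  rw [e3]
  refine (norm_sub_le _ _).trans_lt ?_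
  have h4 := norm_add_le (avgC lam (C k) Φ - avgC lam (C k) Ψ) (avgC lam (C k) Ψ - LC lam Ψ)
  linarith

/-- Derivatives along the geodesic vector field are in the class. -/
theorem good_Yfun (hl : ContDiff ℝ 1 lam) (hC : ∀ k, ∀ c ∈ C k, IsClosedGeodesic lam c.1 c.2) {H : E3 → ℝ}
    (hH : ContDiff ℝ 1 H) (p : PR) : Good lam C (Yfun lam H p) := by
  refine ⟨continuous_Yfun hl hH p, ?_⟩
  have h1 : LC lam (Yfun lam H p) = 0 := by
    unfold LC
    rw [integral_Yfun hl hH p, zero_div]
  have h2 : ∀ k, avgC lam (C k) (Yfun lam H p) = 0 := by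
    intro k
    unfold avgC
    have : ((C k).map fun c => ∫ t in (0 : ℝ)..c.2, Yfun lam H p (frame lam c.1 t)) = (C k).map fun _ => (0 : ℂ) :=
      List.map_congr_left fun c hc => (hC k c hc).integral_Yfun_eq_zero hl hH p
    rw [this]
    simp
  rw [h1]
  simp_rw [h2]
  exact tendsto_const_nhds

theorem avgC_ofReal {L : Fam} (Φ : Rot → ℝ) :
    avgC lam L (fun g => (Φ g : ℂ)) =
      (((L.map fun c => ∫ t in (0 : ℝ)..c.2, Φ (frame lam c.1 t)).sum / (L.map fun c => c.2).sum : ℝ) : ℂ) := by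
  unfold avgC
  rw [Complex.ofReal_div]
  congr 1
  rw [← Complex.ofRealHom_eq_coe, map_list_sum, List.map_map]
  congr 1
  refine List.map_congr_left fun c _ => ?_
  simp only [Function.comp, Complex.ofRealHom_eq_coe]
  exact intervalIntegral.integral_ofReal

theorem LC_ofReal (Φ : Rot → ℝ) :
    LC lam (fun g => (Φ g : ℂ)) =
      (((∫ g, Φ g * Real.exp (2 * lam (row g 0)) ∂haarRot) / ∫ g, Real.exp (2 * lam (row g 0)) ∂haarRot : ℝ) : ℂ) := by
  unfold LC
  rw [Complex.ofReal_div]
  congr 1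
  rw [← integral_complex_ofReal]
  congr 1
  funext g
  simp

theorem good_ofReal_iff {Φ : Rot → ℝ} (hΦ : Continuous Φ) :
    Good lam C (fun g => (Φ g : ℂ)) ↔ Tendsto (fun k =>
      (((C k).map fun c => ∫ t in (0 : ℝ)..c.2, Φ (frame lam c.1 t)).sum / ((C k).map fun c => c.2).sum)) atTop
      (𝓝 ((∫ g, Φ g * Real.exp (2 * lam (row g 0)) ∂haarRot) / ∫ g, Real.exp (2 * lam (row g 0)) ∂haarRot)) := by
  unfold Good
  simp_rw [avgC_ofReal, LC_ofReal]
  constructor
  · rintro ⟨-, h⟩
    have := (Complex.continuous_re.tendsto _).comp h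
    simpa [Function.comp_def] using this
  · intro h
    exact ⟨Complex.continuous_ofReal.comp hΦ, (Complex.continuous_ofReal.tendsto _).comp h⟩

/-- The area average through the Haar measure. -/
theorem areaAverage_eq (hl : Continuous lam) (a : E3 → ℝ) (ha : Continuous a) :
    areaAverage lam a = (∫ g, a (row g 0) * Real.exp (2 * lam (row g 0)) ∂haarRot) /
      ∫ g, Real.exp (2 * lam (row g 0)) ∂haarRot := by
  unfold areaAverage
  have he : Continuous fun x : E3 => Real.exp (2 * lam x) := Real.continuous_exp.comp (continuous_const.mul hl)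
  rw [integral_sphere_eq (fun x => a x * Real.exp (2 * lam x)) (ha.mul he),
    integral_sphere_eq (fun x => Real.exp (2 * lam x)) he]
  rw [mul_div_mul_left _ _ toSphere_real_pos.ne']

/-- Functions of the position are in the class. -/
theorem good_base (hl : Continuous lam) (hC : ∀ k, ∀ c ∈ C k, IsClosedGeodesic lam c.1 c.2)
    (hE : ∀ a : E3 → ℝ, Continuous a →
      Tendsto (fun k => average (C k) fun x _ => a x) atTop (𝓝 (areaAverage lam a)))
    (a : E3 → ℝ) (ha : Continuous a) : Good lam C (fun g => (a (row g 0) : ℂ)) := by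
  rw [good_ofReal_iff (Φ := fun g => a (row g 0)) (ha.comp (continuous_row 0)), ← areaAverage_eq hl a ha]
  refine (hE a ha).congr fun k => ?_
  unfold average
  congr 2
  refine List.map_congr_left fun c hc => ?_
  congr 1
  funext t
  rw [(hC k c hc).1.row_zero t]

end

end Pool.Agent.Helper82.GD
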