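import Pool.Agent.Helper82.GD.Rot

/-!
# Closed geodesics on conformal spheres: definitions

By the uniformisation theorem every Riemannian metric on the two-sphere is isometric to a metric of the form
`exp(2 lam) g0` on the unit sphere of Euclidean three-space, with `g0` the round metric; every metric on the projective
plane is isometric to the quotient of such a metric with `lam` even.
-/

namespace Pool.Agent.Helper82.GD

open MeasureTheory Filter Topology

/-- A geodesic of the metric `exp(2 lam) g0` on the unit sphere of Euclidean three-space, parametrised by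
arc length of that metric (third condition: unit speed).  The last condition is the geodesic equation of
`exp(2 lam) g0`: the tangential part of `γ'' + 2 dlam(γ') γ' - |γ'|^2 grad lam` vanishes, that is, this vector is a
multiple of the normal vector `γ` of the sphere. -/
def IsGeodesic (lam : E3 → ℝ) (γ : ℝ → E3) : Prop :=
  ContDiff ℝ 2 γ ∧ (∀ t, ‖γ t‖ = 1) ∧ (∀ t, Real.exp (lam (γ t)) * ‖deriv γ t‖ = 1) ∧
    ∀ t, ∃ c : ℝ, deriv (deriv γ) t + (2 * fderiv ℝ lam (γ t) (deriv γ t)) • deriv γ t
      - (‖deriv γ t‖ ^ 2) • gradient lam (γ t) = c • γ t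

/-- A closed geodesic on the sphere, with period (length) `T`, possibly run through several times. -/
def IsClosedGeodesic (lam : E3 → ℝ) (γ : ℝ → E3) (T : ℝ) : Prop :=
  IsGeodesic lam γ ∧ 0 < T ∧ ∀ t, γ (t + T) = γ t

/-- For `lam` even, so that `exp(2 lam) g0` is the lift of a metric on the projective plane: a geodesic on the sphere
whose image in the projective plane is a closed geodesic with period (length) `T`. -/
def IsProjClosedGeodesic (lam : E3 → ℝ) (γ : ℝ → E3) (T : ℝ) : Prop :=
  IsGeodesic lam γ ∧ 0 < T ∧ ((∀ t, γ (t + T) = γ t) ∨ ∀ t, γ (t + T) = -γ t)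

/-- The average of a function `F (point, velocity)` over a finite family of closed geodesics, each given by a curve
and its period: the sum of the integrals of `F` divided by the total length. -/
noncomputable def average (L : List ((ℝ → E3) × ℝ)) (F : E3 → E3 → ℝ) : ℝ :=
  (L.map fun c => ∫ t in (0 : ℝ)..c.2, F (c.1 t) (deriv c.1 t)).sum / (L.map fun c => c.2).sum

/-- The average of `a` with respect to the area of the metric `exp(2 lam) g0`. -/
noncomputable def areaAverage (lam : E3 → ℝ) (a : E3 → ℝ) : ℝ :=
  (∫ x : Metric.sphere (0 : E3) 1, a x * Real.exp (2 * lam x) ∂(volume : Measure E3).toSphere) /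
    ∫ x : Metric.sphere (0 : E3) 1, Real.exp (2 * lam x) ∂(volume : Measure E3).toSphere

/-- The average of `F` with respect to the Liouville measure on the unit tangent bundle of `exp(2 lam) g0`.
An orthonormal frame `g` gives the point `row g 0` and the unit tangent vector `exp(-lam) row g 1` of `exp(2 lam) g0`
there; in these coordinates the Liouville measure is the Haar measure of the rotation group with density
`exp(2 lam)`. -/
noncomputable def liouvilleAverage (lam : E3 → ℝ) (F : E3 → E3 → ℝ) : ℝ :=
  (∫ g, F (row g 0) (Real.exp (-lam (row g 0)) • row g 1) * Real.exp (2 * lam (row g 0)) ∂haarRot) /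
    ∫ g, Real.exp (2 * lam (row g 0)) ∂haarRot

/-- The unit tangent bundle of `exp(2 lam) g0`. -/
def unitTangent (lam : E3 → ℝ) : Set (E3 × E3) :=
  {p | ‖p.1‖ = 1 ∧ inner ℝ p.1 p.2 = 0 ∧ Real.exp (lam p.1) * ‖p.2‖ = 1}

/-- The union of the periodic orbits of the geodesic flow of `exp(2 lam) g0` on the sphere. -/
def closedOrbits (lam : E3 → ℝ) : Set (E3 × E3) :=
  {p | ∃ (γ : ℝ → E3) (T : ℝ), IsClosedGeodesic lam γ T ∧ ∃ t, p = (γ t, deriv γ t)}

end Pool.Agent.Helper82.GD
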