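import Mathlib

/-!
# Polynomials in a moving frame

The polynomial ring in the nine variables `(0,i), (1,i), (2,i)` standing for the entries of the position vector `x`,
of `z = v - i w` and of `zbar = v + i w`.  The raising operator `Dp` is surjective onto every positive weight.
-/

namespace Pool.Agent.Helper82.GD

open MvPolynomial

/-- Index set of the variables. -/
abbrev Idx := Fin 3 × Fin 3

/-- The polynomial ring. -/
abbrev PR := MvPolynomial Idx ℂ

/-- Values of the raising derivation on the variables. -/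
noncomputable def dpGen (s : Idx) : PR :=
  if s.1 = 0 then C (1 / 2) * X (1, s.2) else if s.1 = 1 then 0 else -X (0, s.2)

/-- Values of the lowering derivation on the variables. -/
noncomputable def dmGen (s : Idx) : PR :=
  if s.1 = 0 then C (1 / 2) * X (2, s.2) else if s.1 = 1 then -X (0, s.2) else 0

/-- Values of the weight derivation on the variables. -/
noncomputable def wtGen (s : Idx) : PR :=
  if s.1 = 0 then 0 else if s.1 = 1 then X (1, s.2) else -X (2, s.2)

/-- Raising derivation. -/
noncomputable def Dp : Derivation ℂ PR PR := mkDerivation ℂ dpGen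
/-- Lowering derivation. -/
noncomputable def Dm : Derivation ℂ PR PR := mkDerivation ℂ dmGen
/-- Weight derivation. -/
noncomputable def Wt : Derivation ℂ PR PR := mkDerivation ℂ wtGen

@[simp] theorem Dp_X (s : Idx) : Dp (X s) = dpGen s := mkDerivation_X _ _ _
@[simp] theorem Dm_X (s : Idx) : Dm (X s) = dmGen s := mkDerivation_X _ _ _
@[simp] theorem Wt_X (s : Idx) : Wt (X s) = wtGen s := mkDerivation_X _ _ _

@[simp] theorem dpGen0 (i : Fin 3) : dpGen (0, i) = C (1 / 2) * X (1, i) := by simp [dpGen]
@[simp] theorem dpGen1 (i : Fin 3) : dpGen (1, i) = 0 := by simp [dpGen]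
@[simp] theorem dpGen2 (i : Fin 3) : dpGen (2, i) = -X (0, i) := by simp [dpGen]
@[simp] theorem dmGen0 (i : Fin 3) : dmGen (0, i) = C (1 / 2) * X (2, i) := by simp [dmGen]
@[simp] theorem dmGen1 (i : Fin 3) : dmGen (1, i) = -X (0, i) := by simp [dmGen]
@[simp] theorem dmGen2 (i : Fin 3) : dmGen (2, i) = 0 := by simp [dmGen]
@[simp] theorem wtGen0 (i : Fin 3) : wtGen (0, i) = 0 := by simp [wtGen]
@[simp] theorem wtGen1 (i : Fin 3) : wtGen (1, i) = X (1, i) := by simp [wtGen]
@[simp] theorem wtGen2 (i : Fin 3) : wtGen (2, i) = -X (2, i) := by simp [wtGen]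

@[simp] theorem der_C (D : Derivation ℂ PR PR) (a : ℂ) : D (C a) = 0 := by
  rw [← algebraMap_eq]; exact D.map_algebraMap a

theorem der_C_mul (D : Derivation ℂ PR PR) (a : ℂ) (p : PR) : D (C a * p) = C a * D p := by
  rw [D.leibniz]; simp

theorem C_half_add : (C (1 / 2) : PR) + C (1 / 2) = 1 := by
  rw [← C_add]; norm_num

theorem comm_Wt_Dp : ⁅Wt, Dp⁆ = Dp := by
  refine derivation_ext fun s => ?_
  obtain ⟨a, i⟩ := s
  fin_cases a
  · simp [Derivation.commutator_apply, der_C_mul]
  · simp [Derivation.commutator_apply]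
  · simp [Derivation.commutator_apply]

theorem comm_Wt_Dm : ⁅Wt, Dm⁆ = -Dm := by
  refine derivation_ext fun s => ?_
  obtain ⟨a, i⟩ := s
  fin_cases a
  · simp [Derivation.commutator_apply, der_C_mul]
  · simp [Derivation.commutator_apply]
  · simp [Derivation.commutator_apply]

theorem comm_Dp_Dm : ⁅Dp, Dm⁆ = -((1 / 2 : ℂ) • Wt) := by
  refine derivation_ext fun s => ?_
  obtain ⟨a, i⟩ := s
  fin_cases a
  · simp [Derivation.commutator_apply, der_C_mul]
  · simp [Derivation.commutator_apply, smul_eq_C_mul]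
  · simp [Derivation.commutator_apply, smul_eq_C_mul]

theorem Wt_Dp (p : PR) : Wt (Dp p) = Dp (Wt p) + Dp p := by
  have h := congrArg (fun D : Derivation ℂ PR PR => D p) comm_Wt_Dp
  simp only [Derivation.commutator_apply] at h
  linear_combination h

theorem Wt_Dm (p : PR) : Wt (Dm p) = Dm (Wt p) - Dm p := by
  have h := congrArg (fun D : Derivation ℂ PR PR => D p) comm_Wt_Dm
  simp only [Derivation.commutator_apply, Derivation.neg_apply] at h
  linear_combination h

theorem Dp_Dm (p : PR) : Dp (Dm p) = Dm (Dp p) - (1 / 2 : ℂ) • Wt p := by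
  have h := congrArg (fun D : Derivation ℂ PR PR => D p) comm_Dp_Dm
  simp only [Derivation.commutator_apply, Derivation.neg_apply, Derivation.smul_apply] at h
  linear_combination h

/-- Weight `m` elements. -/
def HasWt (m : ℤ) (p : PR) : Prop := Wt p = (m : ℂ) • p

theorem HasWt.zero (m : ℤ) : HasWt m 0 := by simp [HasWt]

theorem HasWt.add {m : ℤ} {p q : PR} (hp : HasWt m p) (hq : HasWt m q) : HasWt m (p + q) := by
  unfold HasWt at *; rw [map_add, hp, hq, smul_add]

theorem HasWt.sub {m : ℤ} {p q : PR} (hp : HasWt m p) (hq : HasWt m q) : HasWt m (p - q) := by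
  unfold HasWt at *; rw [map_sub, hp, hq, smul_sub]

theorem HasWt.smul {m : ℤ} {p : PR} (a : ℂ) (hp : HasWt m p) : HasWt m (a • p) := by
  unfold HasWt at *; rw [Derivation.map_smul, hp, smul_comm]

theorem HasWt.mul {m n : ℤ} {p q : PR} (hp : HasWt m p) (hq : HasWt n q) : HasWt (m + n) (p * q) := by
  unfold HasWt at *
  rw [Derivation.leibniz, hp, hq]
  simp only [smul_eq_C_mul, smul_eq_mul]
  push_cast
  rw [C_add]; ring

theorem HasWt.dp {m : ℤ} {p : PR} (hp : HasWt m p) : HasWt (m + 1) (Dp p) := by
  unfold HasWt at *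
  rw [Wt_Dp, hp, Derivation.map_smul]
  push_cast
  rw [add_smul, one_smul]

theorem HasWt.dm {m : ℤ} {p : PR} (hp : HasWt m p) : HasWt (m - 1) (Dm p) := by
  unfold HasWt at *
  rw [Wt_Dm, hp, Derivation.map_smul]
  push_cast
  rw [sub_smul, one_smul]

theorem HasWt.C (a : ℂ) : HasWt 0 (MvPolynomial.C a) := by simp [HasWt]

theorem HasWt.X0 (i : Fin 3) : HasWt 0 (X (0, i)) := by simp [HasWt]
theorem HasWt.X1 (i : Fin 3) : HasWt 1 (X (1, i)) := by simp [HasWt]
theorem HasWt.X2 (i : Fin 3) : HasWt (-1) (X (2, i)) := by simp [HasWt]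

/-- Iterated commutation. -/
theorem iter_comm (n : ℕ) : ∀ (m : ℤ) (u : PR), HasWt m u →
    Dp^[n + 1] (Dm u) = Dm (Dp^[n + 1] u) - (((n + 1 : ℂ) * (2 * m + n)) / 4) • Dp^[n] u := by
  induction n with
  | zero =>
    intro m u hu
    simp only [zero_add, Function.iterate_one, Function.iterate_zero, id]
    rw [Dp_Dm, hu, smul_smul]
    congr 2
    push_cast; ring
  | succ n ih =>
    intro m u hu
    have hu' := hu.dp
    rw [Function.iterate_succ_apply, Dp_Dm, hu]
    have hsub : ∀ (k : ℕ) (a b : PR), Dp^[k] (a - b) = Dp^[k] a - Dp^[k] b := by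
      intro k
      induction k with
      | zero => intro a b; rfl
      | succ k ihk => intro a b; rw [Function.iterate_succ_apply, Function.iterate_succ_apply,
          Function.iterate_succ_apply, map_sub, ihk]
    have hsm : ∀ (k : ℕ) (c : ℂ) (b : PR), Dp^[k] (c • b) = c • Dp^[k] b := by
      intro k
      induction k with
      | zero => intro c b; rfl
      | succ k ihk => intro c b; rw [Function.iterate_succ_apply, Function.iterate_succ_apply,
          Derivation.map_smul, ihk]
    rw [hsub, ih (m + 1) (Dp u) hu', hsm, hsm, ← Function.iterate_succ_apply, ← Function.iterate_succ_apply,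
      smul_smul, sub_sub, ← add_smul]
    congr 2
    push_cast; ring

theorem iter_add (k : ℕ) (a b : PR) : Dp^[k] (a + b) = Dp^[k] a + Dp^[k] b := by
  induction k generalizing a b with
  | zero => rfl
  | succ k ihk => rw [Function.iterate_succ_apply, Function.iterate_succ_apply,
      Function.iterate_succ_apply, map_add, ihk]

theorem iter_smul (k : ℕ) (c : ℂ) (b : PR) : Dp^[k] (c • b) = c • Dp^[k] b := by
  induction k generalizing b with
  | zero => rfl
  | succ k ihk => rw [Function.iterate_succ_apply, Function.iterate_succ_apply,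
      Derivation.map_smul, ihk]

theorem iter_zero (k : ℕ) : Dp^[k] (0 : PR) = 0 := by
  induction k with
  | zero => rfl
  | succ k ihk => rw [Function.iterate_succ_apply, map_zero, ihk]

theorem iter_mono {n k : ℕ} (h : n ≤ k) {p : PR} (hp : Dp^[n] p = 0) : Dp^[k] p = 0 := by
  obtain ⟨j, rfl⟩ := Nat.exists_eq_add_of_le h
  rw [add_comm, Function.iterate_add_apply, hp, iter_zero]

/-- Products of elements killed by powers of `Dp`. -/
theorem iter_mul (n : ℕ) : ∀ (a b : ℕ) (p q : PR), a + b = n → Dp^[a] p = 0 → Dp^[b] q = 0 →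
    ∃ k, Dp^[k] (p * q) = 0 := by
  induction n with
  | zero =>
    intro a b p q hab hp hq
    have ha : a = 0 := by omega
    subst ha
    have hp' : p = 0 := hp
    exact ⟨0, by simp [hp']⟩
  | succ n ih =>
    intro a b p q hab hp hq
    rcases a with _ | a
    · have hp' : p = 0 := hp
      exact ⟨0, by simp [hp']⟩
    rcases b with _ | b
    · have hq' : q = 0 := hq
      exact ⟨0, by simp [hq']⟩
    obtain ⟨k1, h1⟩ := ih a (b + 1) (Dp p) q (by omega) hp hq
    obtain ⟨k2, h2⟩ := ih (a + 1) b p (Dp q) (by omega) hp hq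
    refine ⟨max k1 k2 + 1, ?_⟩
    rw [Function.iterate_succ_apply, Derivation.leibniz, smul_eq_mul, smul_eq_mul, iter_add,
      iter_mono (le_max_right k1 k2) h2, mul_comm q, iter_mono (le_max_left k1 k2) h1, add_zero]

/-- `Dp` is locally nilpotent. -/
theorem exists_iter_eq_zero (p : PR) : ∃ n, Dp^[n] p = 0 := by
  induction p using MvPolynomial.induction_on with
  | C a => exact ⟨1, by simp⟩
  | add p q hp hq =>
    obtain ⟨n, hn⟩ := hp
    obtain ⟨k, hk⟩ := hq
    exact ⟨max n k, by rw [iter_add, iter_mono (le_max_left n k) hn, iter_mono (le_max_right n k) hk, add_zero]⟩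
  | mul_X p s hp =>
    obtain ⟨n, hn⟩ := hp
    refine iter_mul (n + 3) n 3 p (X s) rfl hn ?_
    obtain ⟨a, i⟩ := s
    fin_cases a
    · simp [Function.iterate_succ_apply, der_C_mul]
    · simp [Function.iterate_succ_apply]
    · simp [Function.iterate_succ_apply, der_C_mul]

/-- The raising operator is onto every positive weight. -/
theorem dp_surj (m : ℤ) (hm : 1 ≤ m) (u : PR) (hu : HasWt m u) : ∃ p, HasWt (m - 1) p ∧ Dp p = u := by
  obtain ⟨n, hn⟩ := exists_iter_eq_zero u
  induction n generalizing u with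
  | zero =>
    have hu0 : u = 0 := hn
    exact ⟨0, HasWt.zero _, by simp [hu0]⟩
  | succ n ih =>
    set s : ℂ := ((n + 1 : ℂ) * (2 * m + n)) / 4 with hs
    have hs0 : s ≠ 0 := by
      have h1 : (n + 1 : ℂ) ≠ 0 := by exact_mod_cast Nat.succ_ne_zero n
      have h2 : (2 * m + n : ℂ) ≠ 0 := by
        have : (2 * m + n : ℤ) ≠ 0 := by positivity
        exact_mod_cast this
      rw [hs]; exact div_ne_zero (mul_ne_zero h1 h2) (by norm_num)
    have hcomm := iter_comm n m u hu
    have hn' : Dp^[n + 1] u = 0 := hn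
    rw [hn', map_zero, zero_sub, Function.iterate_succ_apply] at hcomm
    have hv : HasWt m (Dp (Dm u)) := by
      have := (hu.dm).dp
      simpa using this
    have hw : HasWt m (Dp (Dm u) + s • u) := hv.add (hu.smul s)
    obtain ⟨p, hp, hpe⟩ := ih (Dp (Dm u) + s • u) hw (by rw [iter_add, iter_smul, hcomm]; simp [hs])
    refine ⟨s⁻¹ • (p - Dm u), (hp.sub hu.dm).smul _, ?_⟩
    rw [Derivation.map_smul, map_sub, hpe, add_sub_cancel_left, smul_smul, inv_mul_cancel₀ hs0, one_smul]

/-- Every polynomial is a sum of weight vectors. -/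
theorem span_wt : Submodule.span ℂ {p : PR | ∃ m : ℤ, HasWt m p} = ⊤ := by
  rw [eq_top_iff]
  rintro p -
  induction p using MvPolynomial.induction_on with
  | C a => exact Submodule.subset_span ⟨0, HasWt.C a⟩
  | add p q hp hq => exact Submodule.add_mem _ hp hq
  | mul_X p s hp =>
    have hs : ∃ n : ℤ, HasWt n (X s) := by
      obtain ⟨a, i⟩ := s
      fin_cases a
      · exact ⟨0, HasWt.X0 i⟩
      · exact ⟨1, HasWt.X1 i⟩
      · exact ⟨-1, HasWt.X2 i⟩
    obtain ⟨n, hn⟩ := hs
    induction hp using Submodule.span_induction with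
    | mem q hq =>
      obtain ⟨m, hm⟩ := hq
      exact Submodule.subset_span ⟨m + n, hm.mul hn⟩
    | zero => rw [zero_mul]; exact Submodule.zero_mem _
    | add a b _ _ ha hb => rw [add_mul]; exact Submodule.add_mem _ ha hb
    | smul c a _ ha => rw [smul_mul_assoc]; exact Submodule.smul_mem _ _ ha

/-- Swap of the two conjugate groups of variables. -/
def swapIdx (s : Idx) : Idx := if s.1 = 0 then s else if s.1 = 1 then (2, s.2) else (1, s.2)

/-- Complex conjugation of polynomials. -/
noncomputable def conjP : PR →+* PR :=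
  (rename (R := ℂ) swapIdx).toRingHom.comp (MvPolynomial.map (starRingEnd ℂ))

@[simp] theorem conjP_C (a : ℂ) : conjP (C a) = C (starRingEnd ℂ a) := by simp [conjP]
@[simp] theorem conjP_X (s : Idx) : conjP (X s) = X (swapIdx s) := by simp [conjP]

theorem Wt_conjP (p : PR) : Wt (conjP p) = -conjP (Wt p) := by
  induction p using MvPolynomial.induction_on with
  | C a => simp
  | add p q hp hq => simp only [map_add, hp, hq]; ring
  | mul_X p s hp =>
    have hs : Wt (conjP (X s)) = -conjP (Wt (X s)) := by
      obtain ⟨a, i⟩ := s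
      fin_cases a
      · simp [swapIdx]
      · simp [swapIdx]
      · simp [swapIdx]
    rw [map_mul, Derivation.leibniz, hp, hs, Derivation.leibniz, map_add]
    simp only [smul_eq_mul, map_mul]
    ring

theorem HasWt.conjP {m : ℤ} {p : PR} (hp : HasWt m p) : HasWt (-m) (GD.conjP p) := by
  unfold HasWt at *
  rw [Wt_conjP, hp, smul_eq_C_mul, map_mul, conjP_C, smul_eq_C_mul]
  simp

end Pool.Agent.Helper82.GD
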