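import Pool.Agent.Helper82.GD.Rot
import Pool.Agent.Helper82.GD.Poly

/-!
# Evaluation of polynomials on frames, derivatives along flows, Stone-Weierstrass
-/

namespace Pool.Agent.Helper82.GD

open MvPolynomial Filter Topology

/-- Values of the variables at a matrix. -/
noncomputable def gen (A : Matrix (Fin 3) (Fin 3) ℝ) (s : Idx) : ℂ :=
  if s.1 = 0 then (A 0 s.2 : ℂ) else
    if s.1 = 1 then (A 1 s.2 : ℂ) - Complex.I * (A 2 s.2 : ℂ) else (A 1 s.2 : ℂ) + Complex.I * (A 2 s.2 : ℂ)

@[simp] theorem gen0 (A : Matrix (Fin 3) (Fin 3) ℝ) (j : Fin 3) : gen A (0, j) = (A 0 j : ℂ) := by simp [gen]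
@[simp] theorem gen1 (A : Matrix (Fin 3) (Fin 3) ℝ) (j : Fin 3) :
    gen A (1, j) = (A 1 j : ℂ) - Complex.I * (A 2 j : ℂ) := by simp [gen]
@[simp] theorem gen2 (A : Matrix (Fin 3) (Fin 3) ℝ) (j : Fin 3) :
    gen A (2, j) = (A 1 j : ℂ) + Complex.I * (A 2 j : ℂ) := by simp [gen]

/-- Evaluation of a polynomial at a frame. -/
noncomputable def ev (p : PR) (g : Rot) : ℂ := eval (gen g.1) p

@[simp] theorem ev_add (p q : PR) (g : Rot) : ev (p + q) g = ev p g + ev q g := by simp [ev]
@[simp] theorem ev_sub (p q : PR) (g : Rot) : ev (p - q) g = ev p g - ev q g := by simp [ev]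
@[simp] theorem ev_neg (p : PR) (g : Rot) : ev (-p) g = -ev p g := by simp [ev]
@[simp] theorem ev_mul (p q : PR) (g : Rot) : ev (p * q) g = ev p g * ev q g := by simp [ev]
@[simp] theorem ev_smul (a : ℂ) (p : PR) (g : Rot) : ev (a • p) g = a * ev p g := by simp [ev]
@[simp] theorem ev_C (a : ℂ) (g : Rot) : ev (C a) g = a := by simp [ev]
@[simp] theorem ev_X0 (j : Fin 3) (g : Rot) : ev (X (0, j)) g = (g.1 0 j : ℂ) := by simp [ev]
@[simp] theorem ev_X1 (j : Fin 3) (g : Rot) :
    ev (X (1, j)) g = (g.1 1 j : ℂ) - Complex.I * (g.1 2 j : ℂ) := by simp [ev]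
@[simp] theorem ev_X2 (j : Fin 3) (g : Rot) :
    ev (X (2, j)) g = (g.1 1 j : ℂ) + Complex.I * (g.1 2 j : ℂ) := by simp [ev]

theorem continuous_gen : Continuous fun g : Rot => gen g.1 := by
  refine continuous_pi fun s => ?_
  obtain ⟨a, j⟩ := s
  have h : ∀ i, Continuous fun g : Rot => (g.1 i j : ℂ) := fun i =>
    Complex.continuous_ofReal.comp (continuous_entry i j)
  fin_cases a
  · simpa using h 0
  · refine Continuous.congr ((h 1).sub ((continuous_const (y := Complex.I)).mul (h 2))) fun g => ?_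
    simp
  · refine Continuous.congr ((h 1).add ((continuous_const (y := Complex.I)).mul (h 2))) fun g => ?_
    simp

theorem continuous_ev (p : PR) : Continuous (ev p) :=
  (MvPolynomial.continuous_eval p).comp continuous_gen

/-- Derivative of a polynomial along a moving frame. -/
theorem hasDerivAt_eval (A : ℝ → Matrix (Fin 3) (Fin 3) ℝ) (t α β : ℝ)
    (h0 : ∀ j, HasDerivAt (fun s => A s 0 j) (α * A t 1 j) t)
    (h1 : ∀ j, HasDerivAt (fun s => A s 1 j) (-(α * A t 0 j) + β * A t 2 j) t)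
    (h2 : ∀ j, HasDerivAt (fun s => A s 2 j) (-(β * A t 1 j)) t) (p : PR) :
    HasDerivAt (fun s => eval (gen (A s)) p)
      (α * (eval (gen (A t)) (Dp p) + eval (gen (A t)) (Dm p)) +
        β * Complex.I * eval (gen (A t)) (Wt p)) t := by
  induction p using MvPolynomial.induction_on with
  | C a => simpa using hasDerivAt_const t a
  | add p q hp hq =>
    simp only [map_add]
    refine (hp.fun_add hq).congr_deriv ?_
    ring
  | mul_X p s hp =>
    have hX : HasDerivAt (fun r => eval (gen (A r)) (X s))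
        (α * (eval (gen (A t)) (Dp (X s)) + eval (gen (A t)) (Dm (X s))) +
        β * Complex.I * eval (gen (A t)) (Wt (X s))) t := by
      obtain ⟨a, j⟩ := s
      have e0 := (h0 j).ofReal_comp
      have e1 := (h1 j).ofReal_comp
      have e2 := (h2 j).ofReal_comp
      fin_cases a
      · simp
        refine e0.congr_deriv ?_
        push_cast
        ring
      · simp
        refine (e1.fun_sub (e2.const_mul Complex.I)).congr_deriv ?_
        push_cast
        linear_combination ((β : ℂ) * (A t 2 j : ℂ)) * Complex.I_mul_I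
      · simp
        refine (e1.fun_add (e2.const_mul Complex.I)).congr_deriv ?_
        push_cast
        linear_combination ((β : ℂ) * (A t 2 j : ℂ)) * Complex.I_mul_I
    simp only [map_mul, Derivation.leibniz, smul_eq_mul, map_add]
    refine (hp.fun_mul hX).congr_deriv ?_
    ring

/-- Rotation in the plane of the first two vectors of the frame. -/
noncomputable def flowX (t : ℝ) : Rot :=
  ⟨!![Real.cos t, Real.sin t, 0; -Real.sin t, Real.cos t, 0; 0, 0, 1], by
    rw [mem_rot_iff]
    refine ⟨?_, ?_⟩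
    · ext i j
      fin_cases i <;> fin_cases j <;> simp [Matrix.mul_apply, Fin.sum_univ_three] <;>
        nlinarith [Real.sin_sq_add_cos_sq t]
    · simp [Matrix.det_fin_three]
      nlinarith [Real.sin_sq_add_cos_sq t]⟩

/-- Rotation in the plane of the last two vectors of the frame. -/
noncomputable def flowV (t : ℝ) : Rot :=
  ⟨!![1, 0, 0; 0, Real.cos t, Real.sin t; 0, -Real.sin t, Real.cos t], by
    rw [mem_rot_iff]
    refine ⟨?_, ?_⟩
    · ext i j
      fin_cases i <;> fin_cases j <;> simp [Matrix.mul_apply, Fin.sum_univ_three] <;>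
        nlinarith [Real.sin_sq_add_cos_sq t]
    · simp [Matrix.det_fin_three]
      nlinarith [Real.sin_sq_add_cos_sq t]⟩

theorem flowX_mul (t : ℝ) (g : Rot) (j : Fin 3) :
    (flowX t * g).1 0 j = Real.cos t * g.1 0 j + Real.sin t * g.1 1 j ∧
    (flowX t * g).1 1 j = -(Real.sin t * g.1 0 j) + Real.cos t * g.1 1 j ∧
    (flowX t * g).1 2 j = g.1 2 j := by
  refine ⟨?_, ?_, ?_⟩ <;> simp [flowX, Matrix.mul_apply, Fin.sum_univ_three]

theorem flowV_mul (t : ℝ) (g : Rot) (j : Fin 3) :
    (flowV t * g).1 0 j = g.1 0 j ∧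
    (flowV t * g).1 1 j = Real.cos t * g.1 1 j + Real.sin t * g.1 2 j ∧
    (flowV t * g).1 2 j = -(Real.sin t * g.1 1 j) + Real.cos t * g.1 2 j := by
  refine ⟨?_, ?_, ?_⟩ <;> simp [flowV, Matrix.mul_apply, Fin.sum_univ_three]

theorem hasDerivAt_flowX (p : PR) (g : Rot) (t : ℝ) :
    HasDerivAt (fun s => ev p (flowX s * g)) (ev (Dp p) (flowX t * g) + ev (Dm p) (flowX t * g)) t := by
  have key := hasDerivAt_eval (fun s => (flowX s * g).1) t 1 0 ?_ ?_ ?_ p
  · refine key.congr_deriv ?_
    simp only [ev]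
    push_cast
    ring
  · intro j
    simp only [flowX_mul]
    refine (((Real.hasDerivAt_cos t).mul_const (g.1 0 j)).fun_add
      ((Real.hasDerivAt_sin t).mul_const (g.1 1 j))).congr_deriv ?_
    ring
  · intro j
    simp only [flowX_mul]
    refine ((((Real.hasDerivAt_sin t).mul_const (g.1 0 j)).fun_neg).fun_add
      ((Real.hasDerivAt_cos t).mul_const (g.1 1 j))).congr_deriv ?_
    ring
  · intro j
    simp only [flowX_mul]
    refine (hasDerivAt_const t (g.1 2 j)).congr_deriv ?_
    ring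

theorem hasDerivAt_flowV (p : PR) (g : Rot) (t : ℝ) :
    HasDerivAt (fun s => ev p (flowV s * g)) (Complex.I * ev (Wt p) (flowV t * g)) t := by
  have key := hasDerivAt_eval (fun s => (flowV s * g).1) t 0 1 ?_ ?_ ?_ p
  · refine key.congr_deriv ?_
    simp only [ev]
    push_cast
    ring
  · intro j
    simp only [flowV_mul]
    refine (hasDerivAt_const t (g.1 0 j)).congr_deriv ?_
    ring
  · intro j
    simp only [flowV_mul]
    refine (((Real.hasDerivAt_cos t).mul_const (g.1 1 j)).fun_add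
      ((Real.hasDerivAt_sin t).mul_const (g.1 2 j))).congr_deriv ?_
    ring
  · intro j
    simp only [flowV_mul]
    refine ((((Real.hasDerivAt_sin t).mul_const (g.1 1 j)).fun_neg).fun_add
      ((Real.hasDerivAt_cos t).mul_const (g.1 2 j))).congr_deriv ?_
    ring

theorem flowV_zero_mul (g : Rot) : flowV 0 * g = g := by
  apply Subtype.ext
  ext i j
  fin_cases i
  · simpa using (flowV_mul 0 g j).1
  · simpa using (flowV_mul 0 g j).2.1
  · simpa using (flowV_mul 0 g j).2.2

theorem flowX_zero_mul (g : Rot) : flowX 0 * g = g := by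
  apply Subtype.ext
  ext i j
  fin_cases i
  · simpa using (flowX_mul 0 g j).1
  · simpa using (flowX_mul 0 g j).2.1
  · simpa using (flowX_mul 0 g j).2.2

/-- A weight vector is multiplied by a character along the vertical rotation. -/
theorem ev_flowV {m : ℤ} {p : PR} (hp : HasWt m p) (g : Rot) (t : ℝ) :
    ev p (flowV t * g) = Complex.exp (Complex.I * m * t) * ev p g := by
  have hd : ∀ s : ℝ, HasDerivAt (fun s : ℝ => Complex.exp (-(Complex.I * m * s)) * ev p (flowV s * g)) 0 s := by
    intro s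
    have h1 := hasDerivAt_flowV p g s
    rw [hp, ev_smul] at h1
    have h2 : HasDerivAt (fun s : ℝ => Complex.exp (-(Complex.I * m * s)))
        (Complex.exp (-(Complex.I * m * s)) * (-(Complex.I * m * 1))) s := by
      have h3 : HasDerivAt (fun s : ℝ => (-(Complex.I * m * (s : ℂ)))) (-(Complex.I * m * 1)) s :=
        ((Complex.ofRealCLM.hasDerivAt (x := s)).const_mul (Complex.I * m)).neg
      exact h3.cexp
    refine (h2.fun_mul h1).congr_deriv ?_
    ring
  have hc := is_const_of_deriv_eq_zero (fun s => (hd s).differentiableAt) (fun s => (hd s).deriv) t 0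
  simp only [Complex.ofReal_zero, mul_zero, neg_zero, Complex.exp_zero, one_mul, flowV_zero_mul] at hc
  rw [← hc, ← mul_assoc, ← Complex.exp_add]
  simp

/-- Half turn of the fibre. -/
theorem ev_flowV_pi {m : ℤ} {p : PR} (hp : HasWt m p) (g : Rot) :
    ev p (flowV Real.pi * g) = (-1) ^ m * ev p g := by
  rw [ev_flowV hp]
  congr 1
  have : Complex.I * (m : ℂ) * (Real.pi : ℂ) = m * (Real.pi * Complex.I) := by ring
  rw [this, Complex.exp_int_mul, Complex.exp_pi_mul_I]

theorem exists_angle (a b : ℝ) (h : a ^ 2 + b ^ 2 = 1) : ∃ t, Real.cos t = a ∧ Real.sin t = b := by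
  have hn : ‖(⟨a, b⟩ : ℂ)‖ = 1 := by
    rw [Complex.norm_def, Complex.normSq_mk, Real.sqrt_eq_one]
    nlinarith [h]
  refine ⟨Complex.arg ⟨a, b⟩, ?_, ?_⟩
  · have := Complex.norm_mul_cos_arg ⟨a, b⟩
    rwa [hn, one_mul] at this
  · have := Complex.norm_mul_sin_arg ⟨a, b⟩
    rwa [hn, one_mul] at this

/-- Two frames at the same point differ by a vertical rotation. -/
theorem exists_flowV (g h : Rot) (hgh : ∀ j, g.1 0 j = h.1 0 j) : ∃ t, flowV t * g = h := by
  have gT : g.1.transpose * g.1 = 1 := mul_eq_one_comm.1 (rot_mul_transpose g)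
  have col : ∀ j k, g.1 0 j * g.1 0 k + g.1 1 j * g.1 1 k + g.1 2 j * g.1 2 k = if j = k then 1 else 0 := by
    intro j k
    have := congrFun (congrFun gT j) k
    simpa [Matrix.mul_apply, Fin.sum_univ_three, Matrix.one_apply] using this
  have k01 := rot_sum_mul h (i := 0) (j := 1) (by decide)
  rw [← hgh 0, ← hgh 1, ← hgh 2] at k01
  have k1 := rot_sum_sq h 1
  set a := h.1 1 0 * g.1 1 0 + h.1 1 1 * g.1 1 1 + h.1 1 2 * g.1 1 2 with ha
  set b := h.1 1 0 * g.1 2 0 + h.1 1 1 * g.1 2 1 + h.1 1 2 * g.1 2 2 with hb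
  have row1 : ∀ j, h.1 1 j = a * g.1 1 j + b * g.1 2 j := by
    intro j
    have c0 := col 0 j
    have c1 := col 1 j
    have c2 := col 2 j
    have e : h.1 1 j = h.1 1 0 * (if (0 : Fin 3) = j then 1 else 0) + h.1 1 1 * (if (1 : Fin 3) = j then 1 else 0) +
        h.1 1 2 * (if (2 : Fin 3) = j then 1 else 0) := by
      fin_cases j <;> simp
    rw [← c0, ← c1, ← c2] at e
    rw [e, ha, hb]
    linear_combination (g.1 0 j) * k01
  have hab : a ^ 2 + b ^ 2 = 1 := by
    rw [← k1]
    have r0 := row1 0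
    have r1 := row1 1
    have r2 := row1 2
    have : h.1 1 0 ^ 2 + h.1 1 1 ^ 2 + h.1 1 2 ^ 2 = h.1 1 0 * (a * g.1 1 0 + b * g.1 2 0) +
        h.1 1 1 * (a * g.1 1 1 + b * g.1 2 1) + h.1 1 2 * (a * g.1 1 2 + b * g.1 2 2) := by
      rw [← r0, ← r1, ← r2]; ring
    rw [this]
    rw [ha, hb]
    ring
  obtain ⟨t, hc, hs⟩ := exists_angle a b hab
  refine ⟨t, ?_⟩
  apply Subtype.ext
  ext i j
  obtain ⟨f0, f1, f2⟩ := flowV_mul t g j
  have g3 := rot_third g
  have h3 := rot_third h
  have s0 := rot_sum_sq g 0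
  have m01 := rot_sum_mul g (i := 0) (j := 1) (by decide)
  fin_cases i
  · simp only [Fin.zero_eta]
    rw [f0, hgh j]
  · simp only [Fin.mk_one]
    rw [f1, hc, hs, row1 j]
  · have e2 : (flowV t * g).1 2 j = h.1 2 j := by
      rw [f2, hc, hs]
      obtain ⟨g20, g21, g22⟩ := g3
      obtain ⟨h20, h21, h22⟩ := h3
      rw [← hgh 1, ← hgh 2, row1 1, row1 2, g21, g22] at h20
      rw [← hgh 0, ← hgh 2, row1 0, row1 2, g20, g22] at h21
      rw [← hgh 0, ← hgh 1, row1 0, row1 1, g20, g21] at h22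
      fin_cases j
      · simp only [Fin.zero_eta]
        rw [h20, g20]
        linear_combination (b * g.1 1 0) * s0 - (b * g.1 0 0) * m01
      · simp only [Fin.mk_one]
        rw [h21, g21]
        linear_combination (b * g.1 1 1) * s0 - (b * g.1 0 1) * m01
      · change -(b * g.1 1 2) + a * g.1 2 2 = h.1 2 2
        rw [h22, g22]
        linear_combination (b * g.1 1 2) * s0 - (b * g.1 0 2) * m01
    exact e2

end Pool.Agent.Helper82.GD
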