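import Pool.Agent.Helper82.GD.Avg

/-!
# All even functions are equidistributed
-/

namespace Pool.Agent.Helper82.GD

open MeasureTheory MvPolynomial Filter Topology

theorem ev_conjP (p : PR) (g : Rot) : ev (conjP p) g = starRingEnd ℂ (ev p g) := by
  induction p using MvPolynomial.induction_on with
  | C a => simp
  | add p q hp hq => simp only [map_add, ev_add, hp, hq]
  | mul_X p s hp =>
    have hs : ev (conjP (X s)) g = starRingEnd ℂ (ev (X s) g) := by
      obtain ⟨a, i⟩ := s
      fin_cases a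
      · simp [swapIdx]
      · simp [swapIdx]
      · simp [swapIdx]
        ring
    rw [map_mul, ev_mul, hp, hs, ev_mul, map_mul]

/-- A continuous function of the frame that depends only on the position. -/
theorem exists_base (Θ : Rot → ℝ) (hΘ : Continuous Θ) (h : ∀ g g' : Rot, row g 0 = row g' 0 → Θ g = Θ g') :
    ∃ a : E3 → ℝ, Continuous a ∧ ∀ g, a (row g 0) = Θ g := by
  let π : Rot → Metric.sphere (0 : E3) 1 := fun g => ⟨row g 0, by simp [norm_row]⟩
  have hπ : Continuous π := Continuous.subtype_mk (continuous_row 0) _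
  have hsurj : Function.Surjective π := by
    intro y
    obtain ⟨g, hg⟩ := exists_row_zero (mem_sphere_zero_iff_norm.1 y.2)
    exact ⟨g, Subtype.ext hg⟩
  have hq : IsQuotientMap π := hπ.isClosedMap.isQuotientMap hπ hsurj
  choose s hs using hsurj
  let θ : Metric.sphere (0 : E3) 1 → ℝ := fun y => Θ (s y)
  have hθπ : θ ∘ π = Θ := by
    funext g
    exact h _ _ (congrArg Subtype.val (hs (π g)))
  have hθ : Continuous θ := by
    rw [hq.continuous_iff, hθπ]; exact hΘ
  obtain ⟨F, hF⟩ := ContinuousMap.exists_restrict_eq (s := Metric.sphere (0 : E3) 1) Metric.isClosed_sphere ⟨θ, hθ⟩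
  refine ⟨F, F.continuous, fun g => ?_⟩
  have h1 := congrArg (fun f : C(Metric.sphere (0 : E3) 1, ℝ) => f (π g)) hF
  have h2 : F (row g 0) = θ (π g) := h1
  rw [h2]
  exact congrFun hθπ g

theorem ev_wt_zero {q : PR} (hq : HasWt 0 q) (g g' : Rot) (h : row g 0 = row g' 0) : ev q g = ev q g' := by
  obtain ⟨t, rfl⟩ := exists_flowV g g' fun j => by
    have := congrArg (fun z : E3 => z j) h
    simpa using this
  rw [ev_flowV hq]
  simp

section
variable {lam : E3 → ℝ} {C : ℕ → Fam}

/-- Weight zero. -/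
theorem good_zero (hl : ContDiff ℝ 1 lam) (hC : ∀ k, ∀ c ∈ C k, IsClosedGeodesic lam c.1 c.2)
    (hE : ∀ a : E3 → ℝ, Continuous a →
      Tendsto (fun k => average (C k) fun x _ => a x) atTop (𝓝 (areaAverage lam a)))
    (b : E3 → ℝ) (hb : Continuous b) (q : PR) (hq : HasWt 0 q) :
    Good lam C (fun g => (b (row g 0) : ℂ) * ev q g) := by
  have hΘ : Continuous fun g => (b (row g 0) : ℂ) * ev q g :=
    (Complex.continuous_ofReal.comp (hb.comp (continuous_row 0))).mul (continuous_ev q)
  have hdep : ∀ g g' : Rot, row g 0 = row g' 0 →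
      (b (row g 0) : ℂ) * ev q g = (b (row g' 0) : ℂ) * ev q g' := fun g g' h => by
    rw [ev_wt_zero hq g g' h, h]
  obtain ⟨a1, ha1, h1⟩ := exists_base (fun g => ((b (row g 0) : ℂ) * ev q g).re)
    (Complex.continuous_re.comp hΘ) fun g g' h => by simp only [hdep g g' h]
  obtain ⟨a2, ha2, h2⟩ := exists_base (fun g => ((b (row g 0) : ℂ) * ev q g).im)
    (Complex.continuous_im.comp hΘ) fun g g' h => by simp only [hdep g g' h]
  have g1 := good_base hl.continuous hC hE a1 ha1
  have g2 := good_base hl.continuous hC hE a2 ha2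
  have g3 := g1.add hl hC (g2.smul Complex.I)
  convert g3 using 2 with g
  rw [h1, h2]
  conv_lhs => rw [← Complex.re_add_im ((b (row g 0) : ℂ) * ev q g)]
  ring

theorem bound_cont {F : Type*} [NormedAddCommGroup F] {Ψ : Rot → F} (h : Continuous Ψ) :
    ∃ K : ℝ, 0 < K ∧ ∀ g, ‖Ψ g‖ ≤ K := by
  obtain ⟨K, hK⟩ := (isCompact_range h.norm).bddAbove
  exact ⟨max K 1, lt_max_of_lt_right one_pos, fun g => (hK ⟨g, rfl⟩).trans (le_max_left _ _)⟩

/-- The derivative of `exp(k lam) p` for `p` of weight `k`. -/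
theorem Yfun_exp (hl : ContDiff ℝ 1 lam) (k : ℕ) {p : PR} (hp : HasWt k p) (g : Rot) :
    Yfun lam (fun x => Real.exp (k * lam x)) p g =
      (Real.exp ((k - 1) * lam (row g 0)) : ℂ) * ev (Dp p) g +
      ((Real.exp ((k - 1) * lam (row g 0)) : ℂ) * ev (Dm p) g +
      (((k * Real.exp ((k - 1) * lam (row g 0)) * pd lam 0 (row g 0) : ℝ) : ℂ) * ev (X (2, 0) * p) g +
      (((k * Real.exp ((k - 1) * lam (row g 0)) * pd lam 1 (row g 0) : ℝ) : ℂ) * ev (X (2, 1) * p) g +
      ((k * Real.exp ((k - 1) * lam (row g 0)) * pd lam 2 (row g 0) : ℝ) : ℂ) * ev (X (2, 2) * p) g))) := by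
  have hd : fderiv ℝ (fun x => Real.exp (k * lam x)) (row g 0) (row g 1) =
      Real.exp (k * lam (row g 0)) * (k * fderiv ℝ lam (row g 0) (row g 1)) := by
    have h1 : HasFDerivAt (fun x => Real.exp (k * lam x))
        (Real.exp (k * lam (row g 0)) • ((k : ℝ) • fderiv ℝ lam (row g 0))) (row g 0) :=
      (((hl.differentiable one_ne_zero (row g 0)).hasFDerivAt).const_mul (k : ℝ)).exp
    rw [h1.fderiv]
    simp
  have hexp : (Real.exp (-lam (row g 0)) : ℂ) * (Real.exp (k * lam (row g 0)) : ℂ) =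
      (Real.exp ((k - 1) * lam (row g 0)) : ℂ) := by
    rw [← Complex.ofReal_mul, ← Real.exp_add]
    congr 2
    ring
  have hW : Wt p = ((k : ℤ) : ℂ) • p := hp
  rw [Yfun, hd, fderiv_eq_sum lam _ (row g 1), fderiv_eq_sum lam _ (row g 2), hW]
  simp only [ev_smul, ev_mul, ev_X2, row_apply, Complex.ofReal_mul, Complex.ofReal_add, Complex.ofReal_natCast,
    Int.cast_natCast]
  rw [← hexp]
  ring

/-- Even nonnegative weights. -/
theorem good_even (hl : ContDiff ℝ 1 lam) (hC : ∀ k, ∀ c ∈ C k, IsClosedGeodesic lam c.1 c.2)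
    (hE : ∀ a : E3 → ℝ, Continuous a →
      Tendsto (fun k => average (C k) fun x _ => a x) atTop (𝓝 (areaAverage lam a))) (j : ℕ) :
    ∀ (b : E3 → ℝ), Continuous b → ∀ q : PR, HasWt (2 * j) q →
      Good lam C (fun g => (b (row g 0) : ℂ) * ev q g) := by
  induction j with
  | zero =>
    intro b hb q hq
    exact good_zero hl hC hE b hb q (by simpa using hq)
  | succ j ih =>
    intro b hb q hq
    set k : ℕ := 2 * j + 1 with hk
    have hb0 : Continuous fun g : Rot => (b (row g 0) : ℂ) * ev q g :=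
      (Complex.continuous_ofReal.comp (hb.comp (continuous_row 0))).mul (continuous_ev q)
    -- weight k functions give Good (exp((k-1) lam) * ev (Dp p))
    have hE1 : Continuous fun x : E3 => Real.exp (((k : ℝ) - 1) * lam x) :=
      Real.continuous_exp.comp (continuous_const.mul hl.continuous)
    have key : ∀ p : PR, HasWt k p →
        Good lam C (fun g => (Real.exp (((k : ℝ) - 1) * lam (row g 0)) : ℂ) * ev (Dp p) g) := by
      intro p hp
      have hHk : ContDiff ℝ 1 fun x => Real.exp (k * lam x) := (contDiff_const.mul hl).exp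
      have hY := good_Yfun hl hC hHk p
      have hwm : HasWt (2 * (j : ℤ)) (Dm p) := by
        have := hp.dm
        have e : ((k : ℕ) : ℤ) - 1 = 2 * (j : ℤ) := by rw [hk]; push_cast; ring
        rwa [e] at this
      have hwx : ∀ i, HasWt (2 * (j : ℤ)) (X (2, i) * p) := by
        intro i
        have := (HasWt.X2 i).mul hp
        have e : -1 + ((k : ℕ) : ℤ) = 2 * (j : ℤ) := by rw [hk]; push_cast; ring
        rwa [e] at this
      have g0 := ih _ hE1 (Dm p) hwm
      have gi := fun i => ih (fun x => k * Real.exp (((k : ℝ) - 1) * lam x) * pd lam i x)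
        ((continuous_const.mul hE1).mul (continuous_pd hl i)) (X (2, i) * p) (hwx i)
      have gsum := g0.add hl hC ((gi 0).add hl hC ((gi 1).add hl hC (gi 2)))
      have gall := hY.add hl hC (gsum.smul (-1))
      convert gall using 2 with g
      rw [Yfun_exp hl k hp g]
      ring
    refine Good.of_approx hl hC hb0 fun ε hε => ?_
    obtain ⟨K, hK0, hK⟩ := bound_cont (Ψ := fun g : Rot => Real.exp (((k : ℝ) - 1) * lam (row g 0)))
      (hE1.comp (continuous_row 0))
    obtain ⟨M, hM0, hM⟩ := bound_cont (continuous_ev q)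
    obtain ⟨r, hr, hrb⟩ := approx_base (fun x => Real.exp (-(((k : ℝ) - 1) * lam x)) * b x)
      ((Real.continuous_exp.comp (continuous_const.mul hl.continuous).neg).mul hb) (ε := ε / (K * M)) (by positivity)
    have hrq : HasWt (2 * ((j + 1 : ℕ) : ℤ)) (r * q) := by
      have := hr.mul hq
      rwa [zero_add] at this
    obtain ⟨p, hp, hpe⟩ := dp_surj (2 * ((j + 1 : ℕ) : ℤ)) (by omega) (r * q) hrq
    have e2 : 2 * ((j + 1 : ℕ) : ℤ) - 1 = ((k : ℕ) : ℤ) := by omega
    rw [e2] at hp
    have hp' : HasWt k p := hp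
    refine ⟨_, key p hp', fun g => ?_⟩
    rw [hpe, ev_mul]
    have hexp : (Real.exp (((k : ℝ) - 1) * lam (row g 0)) : ℂ) *
        (Real.exp (-(((k : ℝ) - 1) * lam (row g 0))) : ℂ) = 1 := by
      rw [← Complex.ofReal_mul, ← Real.exp_add]
      simp
    have e : (b (row g 0) : ℂ) * ev q g -
        (Real.exp (((k : ℝ) - 1) * lam (row g 0)) : ℂ) * (ev r g * ev q g) =
        (Real.exp (((k : ℝ) - 1) * lam (row g 0)) : ℂ) *
          (((Real.exp (-(((k : ℝ) - 1) * lam (row g 0))) * b (row g 0) : ℝ) : ℂ) - ev r g) * ev q g := by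
      rw [Complex.ofReal_mul]
      linear_combination (-(b (row g 0) : ℂ) * ev q g) * hexp
    rw [e, norm_mul, norm_mul]
    have h1 : ‖(Real.exp (((k : ℝ) - 1) * lam (row g 0)) : ℂ)‖ ≤ K := by
      rw [Complex.norm_real]; exact hK g
    have h2 := (hrb g).le
    have h3 := hM g
    calc _ ≤ K * (ε / (K * M)) * M := by gcongr
      _ = ε := by field_simp

/-- Every weight vector of even weight. -/
theorem good_wt (hl : ContDiff ℝ 1 lam) (hC : ∀ k, ∀ c ∈ C k, IsClosedGeodesic lam c.1 c.2)
    (hE : ∀ a : E3 → ℝ, Continuous a →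
      Tendsto (fun k => average (C k) fun x _ => a x) atTop (𝓝 (areaAverage lam a)))
    {m : ℤ} (hm : Even m) (p : PR) (hp : HasWt m p) : Good lam C (ev p) := by
  obtain ⟨j, hj⟩ := hm
  have hone : ∀ q : PR, Good lam C (fun g => ((1 : ℝ) : ℂ) * ev q g) → Good lam C (ev q) := by
    intro q h
    convert h using 2 with g
    simp
  rcases le_total 0 j with hj0 | hj0
  · obtain ⟨n, rfl⟩ := Int.eq_ofNat_of_zero_le hj0
    refine hone p (good_even hl hC hE n (fun _ => 1) continuous_const p ?_)
    have e : m = 2 * (n : ℤ) := by rw [hj]; ring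
    rwa [e] at hp
  · obtain ⟨n, hn⟩ := Int.eq_ofNat_of_zero_le (neg_nonneg.2 hj0)
    have hq : HasWt (2 * (n : ℤ)) (conjP p) := by
      have := hp.conjP
      have e : -m = 2 * (n : ℤ) := by rw [hj]; linarith
      rwa [e] at this
    have h1 := (hone _ (good_even hl hC hE n (fun _ => 1) continuous_const (conjP p) hq)).conj
    convert h1 using 2 with g
    rw [ev_conjP]
    simp

/-- The main induction: every even continuous function on the frame bundle is equidistributed. -/
theorem good_all (hl : ContDiff ℝ 1 lam) (hC : ∀ k, ∀ c ∈ C k, IsClosedGeodesic lam c.1 c.2)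
    (hE : ∀ a : E3 → ℝ, Continuous a →
      Tendsto (fun k => average (C k) fun x _ => a x) atTop (𝓝 (areaAverage lam a)))
    (Φ : Rot → ℝ) (hΦ : Continuous Φ) (heven : ∀ g, Φ (flowV Real.pi * g) = Φ g) :
    Good lam C (fun g => (Φ g : ℂ)) := by
  have hpoly : ∀ p : PR, Good lam C (fun g => (1 / 2 : ℂ) * (ev p g + ev p (flowV Real.pi * g))) := by
    intro p
    have hp : p ∈ Submodule.span ℂ {p : PR | ∃ m : ℤ, HasWt m p} := by rw [span_wt]; trivial
    induction hp using Submodule.span_induction with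
    | mem q hq =>
      obtain ⟨m, hm⟩ := hq
      rcases Int.even_or_odd m with he | ho
      · convert good_wt hl hC hE he q hm using 2 with g
        rw [ev_flowV_pi hm, he.neg_one_zpow]
        ring
      · convert (Good.zero : Good lam C (fun _ => 0)) using 2 with g
        rw [ev_flowV_pi hm, ho.neg_one_zpow]
        ring
    | zero =>
      convert (Good.zero : Good lam C (fun _ => 0)) using 2 with g
      simp [ev]
    | add a b _ _ ha hb =>
      convert ha.add hl hC hb using 2 with g
      simp only [ev_add]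
      ring
    | smul c a _ ha =>
      convert ha.smul c using 2 with g
      simp only [ev_smul]
      ring
  refine Good.of_approx hl hC (Complex.continuous_ofReal.comp hΦ) fun ε hε => ?_
  obtain ⟨p, hp⟩ := approx_rot Φ hΦ hε
  refine ⟨_, hpoly p, fun g => ?_⟩
  have h1 := hp g
  have h2 := hp (flowV Real.pi * g)
  rw [heven] at h2
  have e : (Φ g : ℂ) - (1 / 2 : ℂ) * (ev p g + ev p (flowV Real.pi * g)) =
      (1 / 2 : ℂ) * (((Φ g : ℂ) - ev p g) + ((Φ g : ℂ) - ev p (flowV Real.pi * g))) := by ring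
  rw [e, norm_mul]
  have h3 := norm_add_le ((Φ g : ℂ) - ev p g) ((Φ g : ℂ) - ev p (flowV Real.pi * g))
  have h4 : ‖(1 / 2 : ℂ)‖ = 1 / 2 := by norm_num
  rw [h4]
  linarith

end

end Pool.Agent.Helper82.GD
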