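import Pool.Agent.Helper82.GD.Even

/-!
# Equidistribution and density in the unit tangent bundle
-/

namespace Pool.Agent.Helper82.GD

open MeasureTheory Filter Topology

section
variable {lam : E3 → ℝ}

/-- The function of a frame given by a function of position and velocity. -/
noncomputable def lift (lam : E3 → ℝ) (F : E3 → E3 → ℝ) (g : Rot) : ℝ :=
  F (row g 0) (Real.exp (-lam (row g 0)) • row g 1)

theorem continuous_lift (hl : Continuous lam) {F : E3 → E3 → ℝ} (hF : Continuous (Function.uncurry F)) :
    Continuous (lift lam F) := by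
  have h1 : Continuous fun g : Rot => (row g 0, Real.exp (-lam (row g 0)) • row g 1) :=
    (continuous_row 0).prodMk
      ((Real.continuous_exp.comp (hl.comp (continuous_row 0)).neg).smul (continuous_row 1))
  exact hF.comp h1

theorem row_flowV_pi (g : Rot) : row (flowV Real.pi * g) 1 = -row g 1 := by
  ext j
  simp only [row_apply, (flowV_mul Real.pi g j).2.1, PiLp.neg_apply]
  simp

theorem row_flowX_pi_zero (g : Rot) : row (flowX Real.pi * g) 0 = -row g 0 := by
  ext j
  simp only [row_apply, (flowX_mul Real.pi g j).1, PiLp.neg_apply]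
  simp

theorem row_flowX_pi_one (g : Rot) : row (flowX Real.pi * g) 1 = -row g 1 := by
  ext j
  simp only [row_apply, (flowX_mul Real.pi g j).2.1, PiLp.neg_apply]
  simp

theorem lift_frame {γ : ℝ → E3} (h : IsGeodesic lam γ) (F : E3 → E3 → ℝ) (t : ℝ) :
    lift lam F (frame lam γ t) = F (γ t) (deriv γ t) := by
  unfold lift
  rw [h.row_zero, h.row_one, uvec, smul_smul, ← Real.exp_add]
  simp

theorem liouvilleAverage_eq (F : E3 → E3 → ℝ) :
    liouvilleAverage lam F = (∫ g, lift lam F g * Real.exp (2 * lam (row g 0)) ∂haarRot) /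
      ∫ g, Real.exp (2 * lam (row g 0)) ∂haarRot := rfl

/-- Symmetrisation in the velocity does not change the Liouville average. -/
theorem liouvilleAverage_symm (hl : Continuous lam) {F : E3 → E3 → ℝ} (hF : Continuous (Function.uncurry F)) :
    liouvilleAverage lam (fun x v => (F x v + F x (-v)) / 2) = liouvilleAverage lam F := by
  rw [liouvilleAverage_eq, liouvilleAverage_eq]
  congr 1
  have hc := continuous_lift hl hF
  have he := continuous_expl hl
  have h1 : ∀ g : Rot, lift lam (fun x v => (F x v + F x (-v)) / 2) g * Real.exp (2 * lam (row g 0)) =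
      (1 / 2) * (lift lam F g * Real.exp (2 * lam (row g 0))) +
      (1 / 2) * ((fun g => lift lam F g * Real.exp (2 * lam (row g 0))) (flowV Real.pi * g)) := by
    intro g
    simp only [lift, row_flowV_zero, row_flowV_pi, smul_neg]
    ring
  simp_rw [h1]
  have hi : Integrable (fun g => lift lam F g * Real.exp (2 * lam (row g 0))) haarRot := integrable_cont (hc.mul he)
  have hi2 : Integrable (fun g => (fun g => lift lam F g * Real.exp (2 * lam (row g 0))) (flowV Real.pi * g))
      haarRot := integrable_cont ((hc.mul he).comp (continuous_const_mul _))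
  rw [integral_add (hi.const_mul _) (hi2.const_mul _), integral_const_mul, integral_const_mul,
    integral_mul_left_eq_self (fun g => lift lam F g * Real.exp (2 * lam (row g 0))) (flowV Real.pi)]
  ring

/-- Equidistribution in the unit tangent bundle. -/
theorem equidistribution (hl : ContDiff ℝ 1 lam) {C : ℕ → Fam}
    (hC : ∀ k, ∀ c ∈ C k, IsClosedGeodesic lam c.1 c.2)
    (hE : ∀ a : E3 → ℝ, Continuous a →
      Tendsto (fun k => average (C k) fun x _ => a x) atTop (𝓝 (areaAverage lam a)))
    {F : E3 → E3 → ℝ} (hF : Continuous (Function.uncurry F)) :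
    Tendsto (fun k => average (C k) fun x v => (F x v + F x (-v)) / 2) atTop (𝓝 (liouvilleAverage lam F)) := by
  have hFs : Continuous (Function.uncurry fun x v => (F x v + F x (-v)) / 2) := by
    have h2 : Continuous fun q : E3 × E3 => Function.uncurry F (q.1, -q.2) :=
      hF.comp (continuous_fst.prodMk continuous_snd.neg)
    exact (hF.add h2).div_const 2
  have hc := continuous_lift hl.continuous hFs
  have hg := good_all hl hC hE (lift lam fun x v => (F x v + F x (-v)) / 2) hc (fun g => by
    simp only [lift, row_flowV_zero, row_flowV_pi, smul_neg, neg_neg]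
    ring)
  rw [good_ofReal_iff hc, ← liouvilleAverage_eq, liouvilleAverage_symm hl.continuous hF] at hg
  refine hg.congr fun k => ?_
  unfold average
  congr 2
  refine List.map_congr_left fun c hc => ?_
  congr 1
  funext t
  rw [lift_frame (hC k c hc).1]

/-- Reversal of a geodesic. -/
theorem IsGeodesic.reverse {γ : ℝ → E3} (h : IsGeodesic lam γ) : IsGeodesic lam (fun s => γ (-s)) := by
  have hd : deriv (fun s => γ (-s)) = fun s => -deriv γ (-s) := by
    funext s; exact deriv_comp_neg γ s
  have hdd : ∀ s, deriv (deriv fun s => γ (-s)) s = deriv (deriv γ) (-s) := by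
    intro s
    rw [hd]
    have : (fun s => -deriv γ (-s)) = fun s => -((deriv γ) (-s)) := rfl
    rw [deriv.fun_neg, deriv_comp_neg, neg_neg]
  refine ⟨h.1.comp contDiff_neg, fun t => h.2.1 (-t), fun t => ?_, fun t => ?_⟩
  · rw [hd]
    simpa using h.2.2.1 (-t)
  · obtain ⟨c, hc⟩ := h.2.2.2 (-t)
    refine ⟨c, ?_⟩
    rw [hdd, hd, ← hc]
    simp

theorem IsClosedGeodesic.reverse {γ : ℝ → E3} {T : ℝ} (h : IsClosedGeodesic lam γ T) :
    IsClosedGeodesic lam (fun s => γ (-s)) T := by
  refine ⟨h.1.reverse, h.2.1, fun t => ?_⟩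
  have h1 := h.2.2 (-(t + T))
  have h2 : -(t + T) + T = -t := by ring
  rw [h2] at h1
  exact h1.symm

/-- Positive averages give a point of some closed geodesic. -/
theorem exists_pos_of_average_pos {L : Fam} {F : E3 → E3 → ℝ} (hL : ∀ c ∈ L, IsClosedGeodesic lam c.1 c.2)
    (h : 0 < average L F) : ∃ c ∈ L, ∃ t, 0 < F (c.1 t) (deriv c.1 t) := by
  by_contra hcon
  push Not at hcon
  have h1 : (L.map fun c => ∫ t in (0 : ℝ)..c.2, F (c.1 t) (deriv c.1 t)).sum ≤ 0 := by
    clear h
    induction L with
    | nil => simp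
    | cons c L ih =>
      rw [List.map_cons, List.sum_cons]
      have hT := (hL c List.mem_cons_self).2.1
      have h0 := intervalIntegral.integral_nonneg (f := fun t => -F (c.1 t) (deriv c.1 t)) (μ := volume) hT.le
        (fun t _ => by simpa using hcon c List.mem_cons_self t)
      rw [intervalIntegral.integral_neg] at h0
      have h2 := ih (fun d hd => hL d (List.mem_cons_of_mem _ hd))
        (fun d hd => hcon d (List.mem_cons_of_mem _ hd))
      linarith
  have h2 := period_sum_nonneg hL
  have h3 : average L F ≤ 0 := div_nonpos_of_nonpos_of_nonneg h1 h2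
  linarith

/-- Density in the unit tangent bundle. -/
theorem density (hl : ContDiff ℝ 1 lam) {C : ℕ → Fam}
    (hC : ∀ k, ∀ c ∈ C k, IsClosedGeodesic lam c.1 c.2)
    (hE : ∀ a : E3 → ℝ, Continuous a →
      Tendsto (fun k => average (C k) fun x _ => a x) atTop (𝓝 (areaAverage lam a))) :
    unitTangent lam ⊆ closure (closedOrbits lam) := by
  rintro ⟨x0, v0⟩ ⟨hx, hxv, hv⟩
  rw [Metric.mem_closure_iff]
  intro ε hε
  let F : E3 → E3 → ℝ := fun x v => max 0 (ε / 2 - (‖x - x0‖ + ‖v - v0‖))
  have hF : Continuous (Function.uncurry F) := by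
    have : Continuous fun q : E3 × E3 => max 0 (ε / 2 - (‖q.1 - x0‖ + ‖q.2 - v0‖)) := by fun_prop
    exact this
  have hF0 : ∀ x v, 0 ≤ F x v := fun x v => le_max_left _ _
  have hpos : 0 < liouvilleAverage lam F := by
    rw [liouvilleAverage_eq]
    refine div_pos ?_ (LC_den_pos hl.continuous)
    set u0 : E3 := Real.exp (lam x0) • v0 with hu0
    have hu : ‖u0‖ = 1 := by
      rw [hu0, norm_smul, Real.norm_eq_abs, abs_of_pos (Real.exp_pos _)]; exact hv
    have hxu : inner ℝ x0 u0 = 0 := by
      rw [hu0, inner_smul_right]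
      have : inner ℝ x0 v0 = 0 := hxv
      rw [this, mul_zero]
    have hx' : ‖x0‖ = 1 := hx
    refine Continuous.integral_pos_of_hasCompactSupport_nonneg_nonzero
      ((continuous_lift hl.continuous hF).mul (continuous_expl hl.continuous)) (HasCompactSupport.of_compactSpace _)
      (fun g => mul_nonneg (hF0 _ _) (Real.exp_pos _).le) (x := mkRot x0 u0) ?_
    refine mul_ne_zero ?_ (Real.exp_pos _).ne'
    unfold lift
    rw [row_mkRot_zero hx' hu hxu, row_mkRot_one hx' hu hxu, hu0, smul_smul, ← Real.exp_add]
    simp only [neg_add_cancel, Real.exp_zero, one_smul, F, sub_self, norm_zero, add_zero, sub_zero]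
    rw [max_eq_right (by positivity)]
    positivity
  obtain ⟨k, hk⟩ := ((equidistribution hl hC hE hF).eventually (lt_mem_nhds hpos)).exists
  obtain ⟨c, hc, t, ht⟩ := exists_pos_of_average_pos (hC k) hk
  have hnear : ∀ x v, 0 < F x v → dist (x0, v0) (x, v) < ε := by
    intro x v h
    have h1 : 0 < ε / 2 - (‖x - x0‖ + ‖v - v0‖) := by
      rcases lt_max_iff.1 h with h | h
      · exact absurd h (lt_irrefl _)
      · exact h
    rw [Prod.dist_eq, dist_comm, dist_comm (x0, v0).2, dist_eq_norm, dist_eq_norm]
    refine max_lt ?_ ?_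
    · have := norm_nonneg (v - v0); simp only; linarith
    · have := norm_nonneg (x - x0); simp only; linarith
  have hcg := hC k c hc
  rcases lt_or_ge 0 (F (c.1 t) (deriv c.1 t)) with h | h
  · exact ⟨(c.1 t, deriv c.1 t), ⟨c.1, c.2, hcg, t, rfl⟩, hnear _ _ h⟩
  · have h2 : 0 < F (c.1 t) (-deriv c.1 t) := by linarith
    refine ⟨(c.1 t, -deriv c.1 t), ⟨fun s => c.1 (-s), c.2, hcg.reverse, -t, ?_⟩, hnear _ _ h2⟩
    rw [deriv_comp_neg]
    simp

/-! ### The projective plane -/

theorem fderiv_even (heven : ∀ x, lam (-x) = lam x) (hl : ContDiff ℝ 1 lam) (x u : E3) :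
    fderiv ℝ lam (-x) u = -fderiv ℝ lam x u := by
  have h1 : (fun x => lam (-x)) = lam := funext heven
  have h2 : fderiv ℝ (fun x => lam (-x)) x u = fderiv ℝ lam (-x) (-u) := by
    have h3 : HasFDerivAt (fun x : E3 => lam (-x)) ((fderiv ℝ lam (-x)).comp (-(ContinuousLinearMap.id ℝ E3))) x :=
      (hl.differentiable one_ne_zero (-x)).hasFDerivAt.comp x (hasFDerivAt_id x).neg
    rw [h3.fderiv]
    simp
  rw [h1] at h2
  rw [h2, map_neg, neg_neg]

theorem gradient_even (heven : ∀ x, lam (-x) = lam x) (hl : ContDiff ℝ 1 lam) (x : E3) :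
    gradient lam (-x) = -gradient lam x := by
  ext j
  rw [PiLp.neg_apply, gradient_apply hl, gradient_apply hl, pd, pd, fderiv_even heven hl]

/-- The antipodal image of a geodesic. -/
theorem IsGeodesic.antipode (heven : ∀ x, lam (-x) = lam x) (hl : ContDiff ℝ 1 lam) {γ : ℝ → E3}
    (h : IsGeodesic lam γ) : IsGeodesic lam (fun s => -γ s) := by
  have hd : deriv (fun s => -γ s) = fun s => -deriv γ s := by
    funext s; exact deriv.fun_neg
  have hdd : ∀ s, deriv (deriv fun s => -γ s) s = -deriv (deriv γ) s := by
    intro s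
    rw [hd]; exact deriv.fun_neg
  refine ⟨h.1.neg, fun t => by rw [norm_neg]; exact h.2.1 t, fun t => ?_, fun t => ?_⟩
  · rw [hd, heven]
    simpa using h.2.2.1 t
  · obtain ⟨c, hc⟩ := h.2.2.2 t
    refine ⟨c, ?_⟩
    rw [hdd, hd, fderiv_even heven hl, gradient_even heven hl]
    simp only [map_neg, neg_neg, norm_neg, smul_neg]
    rw [← hc]
    abel

/-- Lift of a family of closed geodesics of the projective plane to the sphere. -/
noncomputable def liftFam (L : Fam) : Fam :=
  L.flatMap fun c => [(c.1, 2 * c.2), (fun s => -c.1 s, 2 * c.2)]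

theorem liftFam_closed (heven : ∀ x, lam (-x) = lam x) (hl : ContDiff ℝ 1 lam) {L : Fam}
    (hL : ∀ c ∈ L, IsProjClosedGeodesic lam c.1 c.2) : ∀ c ∈ liftFam L, IsClosedGeodesic lam c.1 c.2 := by
  intro c hc
  obtain ⟨d, hd, hcd⟩ := List.mem_flatMap.1 hc
  obtain ⟨hg, hT, hper⟩ := hL d hd
  have h2 : ∀ t, d.1 (t + 2 * d.2) = d.1 t := by
    intro t
    have e : t + 2 * d.2 = (t + d.2) + d.2 := by ring
    rcases hper with h | h
    · rw [e, h, h]
    · rw [e, h, h, neg_neg]
  simp only [List.mem_cons, List.not_mem_nil, or_false] at hcd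
  rcases hcd with rfl | rfl
  · exact ⟨hg, by simpa using hT, h2⟩
  · exact ⟨hg.antipode heven hl, by simpa using hT, fun t => by simp only [h2 t]⟩

theorem average_liftFam {L : Fam}
    (hL : ∀ c ∈ L, IsProjClosedGeodesic lam c.1 c.2) {F : E3 → E3 → ℝ} (hF : Continuous (Function.uncurry F)) :
    average (liftFam L) F = average L (fun x v => (F x v + F (-x) (-v)) / 2) := by
  have hnum : ((liftFam L).map fun c => ∫ t in (0 : ℝ)..c.2, F (c.1 t) (deriv c.1 t)).sum =
      4 * (L.map fun c => ∫ t in (0 : ℝ)..c.2, (F (c.1 t) (deriv c.1 t) + F (-c.1 t) (-deriv c.1 t)) / 2).sum := by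
    induction L with
    | nil => simp [liftFam]
    | cons c L ih =>
      have ih' := ih fun d hd => hL d (List.mem_cons_of_mem _ hd)
      have e1 : liftFam (c :: L) = (c.1, 2 * c.2) :: (fun s => -c.1 s, 2 * c.2) :: liftFam L := by
        simp [liftFam]
      rw [e1, List.map_cons, List.map_cons, List.sum_cons, List.sum_cons, ih', List.map_cons, List.sum_cons,
        mul_add, ← add_assoc]
      congr 1
      obtain ⟨hg, hT, hper⟩ := hL c List.mem_cons_self
      simp only
      have hdneg : ∀ t, deriv (fun s => -c.1 s) t = -deriv c.1 t := fun t => deriv.fun_neg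
      simp only [hdneg]
      set G : ℝ → ℝ := fun t => F (c.1 t) (deriv c.1 t) + F (-c.1 t) (-deriv c.1 t) with hG
      have hc1 : Continuous c.1 := hg.1.continuous
      have hc2 : Continuous (deriv c.1) := hg.contDiff_deriv.continuous
      have hA : Continuous fun t => F (c.1 t) (deriv c.1 t) := hF.comp (hc1.prodMk hc2)
      have hB : Continuous fun t => F (-c.1 t) (-deriv c.1 t) := hF.comp (hc1.neg.prodMk hc2.neg)
      rw [← intervalIntegral.integral_add (hA.intervalIntegrable _ _) (hB.intervalIntegrable _ _)]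
      have hGc : Continuous G := hA.add hB
      have hGper : Function.Periodic G c.2 := by
        intro t
        rcases hper with h | h
        · have hd : deriv c.1 (t + c.2) = deriv c.1 t := by
            have h2 : deriv (fun s => c.1 (s + c.2)) t = deriv c.1 (t + c.2) := deriv_comp_add_const ..
            have h3 : (fun s => c.1 (s + c.2)) = c.1 := funext h
            rw [← h2, h3]
          simp only [hG, h t, hd]
        · have hd : deriv c.1 (t + c.2) = -deriv c.1 t := by
            have h2 : deriv (fun s => c.1 (s + c.2)) t = deriv c.1 (t + c.2) := deriv_comp_add_const ..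
            have h3 : (fun s => c.1 (s + c.2)) = fun s => -c.1 s := funext h
            rw [← h2, h3, hdneg]
          simp only [hG, h t, hd, neg_neg]
          ring
      have e2 : ∫ t in (0 : ℝ)..2 * c.2, G t = 2 * ∫ t in (0 : ℝ)..c.2, G t := by
        rw [← intervalIntegral.integral_add_adjacent_intervals (hGc.intervalIntegrable 0 c.2)
          (hGc.intervalIntegrable c.2 (2 * c.2))]
        have h3 := hGper.intervalIntegral_add_eq 0 c.2
        rw [zero_add] at h3
        have h4 : (2 : ℝ) * c.2 = c.2 + c.2 := by ring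
        rw [h4, ← h3]
        ring
      rw [e2, intervalIntegral.integral_div]
      ring
  have hden : ((liftFam L).map fun c => c.2).sum = 4 * (L.map fun c => c.2).sum := by
    clear hnum hL
    induction L with
    | nil => simp [liftFam]
    | cons c L ih =>
      have e1 : liftFam (c :: L) = (c.1, 2 * c.2) :: (fun s => -c.1 s, 2 * c.2) :: liftFam L := by
        simp [liftFam]
      rw [e1, List.map_cons, List.map_cons, List.sum_cons, List.sum_cons, ih, List.map_cons, List.sum_cons]
      ring
  unfold average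
  rw [hnum, hden, mul_div_mul_left _ _ (by norm_num)]

theorem areaAverage_symm (heven : ∀ x, lam (-x) = lam x) (hl : Continuous lam) {a : E3 → ℝ} (ha : Continuous a) :
    areaAverage lam (fun x => (a x + a (-x)) / 2) = areaAverage lam a := by
  rw [areaAverage_eq hl (fun x => (a x + a (-x)) / 2) ((ha.add (ha.comp continuous_neg)).div_const 2),
    areaAverage_eq hl a ha]
  congr 1
  have he := continuous_expl hl
  have hc : Continuous fun g : Rot => a (row g 0) := ha.comp (continuous_row 0)
  have h1 : ∀ g : Rot, (a (row g 0) + a (-row g 0)) / 2 * Real.exp (2 * lam (row g 0)) =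
      (1 / 2) * (a (row g 0) * Real.exp (2 * lam (row g 0))) +
      (1 / 2) * ((fun g => a (row g 0) * Real.exp (2 * lam (row g 0))) (flowX Real.pi * g)) := by
    intro g
    simp only [row_flowX_pi_zero, heven]
    ring
  simp_rw [h1]
  have hi : Integrable (fun g : Rot => a (row g 0) * Real.exp (2 * lam (row g 0))) haarRot :=
    integrable_cont (hc.mul he)
  have hi2 : Integrable (fun g => (fun g => a (row g 0) * Real.exp (2 * lam (row g 0))) (flowX Real.pi * g))
      haarRot := integrable_cont ((hc.mul he).comp (continuous_const_mul _))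
  rw [integral_add (hi.const_mul _) (hi2.const_mul _), integral_const_mul, integral_const_mul,
    integral_mul_left_eq_self (fun g : Rot => a (row g 0) * Real.exp (2 * lam (row g 0))) (flowX Real.pi)]
  ring

/-- The hypothesis on the projective plane gives the hypothesis on the sphere. -/
theorem hyp_lift (heven : ∀ x, lam (-x) = lam x) (hl : ContDiff ℝ 1 lam) {C : ℕ → Fam}
    (hC : ∀ k, ∀ c ∈ C k, IsProjClosedGeodesic lam c.1 c.2)
    (hE : ∀ a : E3 → ℝ, Continuous a → (∀ x, a (-x) = a x) →
      Tendsto (fun k => average (C k) fun x _ => a x) atTop (𝓝 (areaAverage lam a)))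
    (a : E3 → ℝ) (ha : Continuous a) :
    Tendsto (fun k => average (liftFam (C k)) fun x _ => a x) atTop (𝓝 (areaAverage lam a)) := by
  have h := hE (fun x => (a x + a (-x)) / 2) ((ha.add (ha.comp continuous_neg)).div_const 2)
    (fun x => by rw [neg_neg]; ring)
  rw [areaAverage_symm heven hl.continuous ha] at h
  refine h.congr fun k => ?_
  rw [average_liftFam (hC k) (F := fun x _ => a x) (ha.comp continuous_fst)]

end

/-- Main theorem. -/
theorem main (lam : E3 → ℝ) (hl : ContDiff ℝ 1 lam) :
    (∀ C : ℕ → List ((ℝ → E3) × ℝ), (∀ k, ∀ c ∈ C k, IsClosedGeodesic lam c.1 c.2) →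
      (∀ a : E3 → ℝ, Continuous a →
        Tendsto (fun k => average (C k) fun x _ => a x) atTop (𝓝 (areaAverage lam a))) →
      (∀ F : E3 → E3 → ℝ, Continuous (Function.uncurry F) →
        Tendsto (fun k => average (C k) fun x v => (F x v + F x (-v)) / 2) atTop (𝓝 (liouvilleAverage lam F))) ∧
      unitTangent lam ⊆ closure (closedOrbits lam)) ∧
    ((∀ x, lam (-x) = lam x) →
      ∀ C : ℕ → List ((ℝ → E3) × ℝ), (∀ k, ∀ c ∈ C k, IsProjClosedGeodesic lam c.1 c.2) →
      (∀ a : E3 → ℝ, Continuous a → (∀ x, a (-x) = a x) →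
        Tendsto (fun k => average (C k) fun x _ => a x) atTop (𝓝 (areaAverage lam a))) →
      (∀ F : E3 → E3 → ℝ, Continuous (Function.uncurry F) → (∀ x v, F (-x) (-v) = F x v) →
        Tendsto (fun k => average (C k) fun x v => (F x v + F x (-v)) / 2) atTop (𝓝 (liouvilleAverage lam F))) ∧
      unitTangent lam ⊆ closure (closedOrbits lam)) := by
  refine ⟨fun C hC hE => ⟨fun F hF => equidistribution hl hC hE hF, density hl hC hE⟩, fun heven C hC hE => ?_⟩
  have hC' : ∀ k, ∀ c ∈ liftFam (C k), IsClosedGeodesic lam c.1 c.2 := fun k => liftFam_closed heven hl (hC k)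
  have hE' := hyp_lift heven hl hC hE
  refine ⟨fun F hF hinv => ?_, density hl hC' hE'⟩
  have h := equidistribution hl hC' hE' hF
  have hFs : Continuous (Function.uncurry fun x v => (F x v + F x (-v)) / 2) := by
    have h2 : Continuous fun q : E3 × E3 => Function.uncurry F (q.1, -q.2) :=
      hF.comp (continuous_fst.prodMk continuous_snd.neg)
    exact (hF.add h2).div_const 2
  refine h.congr fun k => ?_
  rw [average_liftFam (hC k) hFs]
  congr 1
  funext x v
  have e1 := hinv x v
  have e2 := hinv x (-v)
  rw [neg_neg] at e2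
  rw [neg_neg, e1, e2]
  ring

end Pool.Agent.Helper82.GD
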