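import Pool.Agent.Helper82.GD.Sphere
import Pool.Agent.Helper82.GD.Defs

/-!
# The moving frame of a geodesic
-/

namespace Pool.Agent.Helper82.GD

open MeasureTheory MvPolynomial Filter Topology

/-- Round unit tangent vector of a curve. -/
noncomputable def uvec (lam : E3 → ℝ) (γ : ℝ → E3) (t : ℝ) : E3 := Real.exp (lam (γ t)) • deriv γ t

/-- The frame of a curve. -/
noncomputable def frame (lam : E3 → ℝ) (γ : ℝ → E3) (t : ℝ) : Rot := mkRot (γ t) (uvec lam γ t)

section
variable {lam : E3 → ℝ} {γ : ℝ → E3}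

theorem IsGeodesic.hasDerivAt (h : IsGeodesic lam γ) (t : ℝ) : HasDerivAt γ (deriv γ t) t :=
  (h.1.differentiable two_ne_zero t).hasDerivAt

theorem IsGeodesic.contDiff_deriv (h : IsGeodesic lam γ) : ContDiff ℝ 1 (deriv γ) := by
  have h2 : ContDiff ℝ (1 + 1) γ := by simpa [one_add_one_eq_two] using h.1
  exact (contDiff_succ_iff_deriv.1 h2).2.2

theorem IsGeodesic.hasDerivAt2 (h : IsGeodesic lam γ) (t : ℝ) : HasDerivAt (deriv γ) (deriv (deriv γ) t) t :=
  (h.contDiff_deriv.differentiable one_ne_zero t).hasDerivAt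

theorem IsGeodesic.norm_uvec (h : IsGeodesic lam γ) (t : ℝ) : ‖uvec lam γ t‖ = 1 := by
  rw [uvec, norm_smul, Real.norm_eq_abs, abs_of_pos (Real.exp_pos _)]
  exact h.2.2.1 t

theorem IsGeodesic.inner_deriv (h : IsGeodesic lam γ) (t : ℝ) : inner ℝ (γ t) (deriv γ t) = 0 := by
  have h1 : HasDerivAt (fun s => inner ℝ (γ s) (γ s)) (inner ℝ (γ t) (deriv γ t) + inner ℝ (deriv γ t) (γ t)) t :=
    (h.hasDerivAt t).inner ℝ (h.hasDerivAt t)
  have h2 : (fun s => inner ℝ (γ s) (γ s)) = fun _ => (1 : ℝ) := by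
    funext s
    rw [real_inner_self_eq_norm_sq, h.2.1 s]; norm_num
  rw [h2] at h1
  have h3 := h1.unique (hasDerivAt_const t (1 : ℝ))
  rw [real_inner_comm (γ t) (deriv γ t)] at h3
  linarith

theorem IsGeodesic.inner_uvec (h : IsGeodesic lam γ) (t : ℝ) : inner ℝ (γ t) (uvec lam γ t) = 0 := by
  rw [uvec, inner_smul_right, h.inner_deriv, mul_zero]

theorem IsGeodesic.inner_deriv2 (h : IsGeodesic lam γ) (t : ℝ) :
    inner ℝ (γ t) (deriv (deriv γ) t) + ‖deriv γ t‖ ^ 2 = 0 := by
  have h1 : HasDerivAt (fun s => inner ℝ (γ s) (deriv γ s))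
      (inner ℝ (γ t) (deriv (deriv γ) t) + inner ℝ (deriv γ t) (deriv γ t)) t :=
    (h.hasDerivAt t).inner ℝ (h.hasDerivAt2 t)
  have h2 : (fun s => inner ℝ (γ s) (deriv γ s)) = fun _ => (0 : ℝ) := by
    funext s
    exact h.inner_deriv s
  rw [h2] at h1
  have h3 := h1.unique (hasDerivAt_const t (0 : ℝ))
  rw [real_inner_self_eq_norm_sq] at h3
  exact h3

theorem IsGeodesic.frame_val (h : IsGeodesic lam γ) (t : ℝ) :
    (frame lam γ t).1 = frameMat (γ t) (uvec lam γ t) :=
  mkRot_val (h.2.1 t) (h.norm_uvec t) (h.inner_uvec t)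

theorem IsGeodesic.row_zero (h : IsGeodesic lam γ) (t : ℝ) : row (frame lam γ t) 0 = γ t :=
  row_mkRot_zero (h.2.1 t) (h.norm_uvec t) (h.inner_uvec t)

theorem IsGeodesic.row_one (h : IsGeodesic lam γ) (t : ℝ) : row (frame lam γ t) 1 = uvec lam γ t :=
  row_mkRot_one (h.2.1 t) (h.norm_uvec t) (h.inner_uvec t)

theorem IsGeodesic.continuous_frame (hl : ContDiff ℝ 1 lam) (h : IsGeodesic lam γ) :
    Continuous (frame lam γ) := by
  refine continuous_induced_rng.2 ?_
  have h1 : (Subtype.val ∘ frame lam γ) = fun t => frameMat (γ t) (uvec lam γ t) := by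
    funext t; exact h.frame_val t
  rw [h1]
  have hc : Continuous γ := h.1.continuous
  have hu : Continuous (uvec lam γ) :=
    (Real.continuous_exp.comp (hl.continuous.comp hc)).smul h.contDiff_deriv.continuous
  have hcj : ∀ j, Continuous fun t => γ t j := fun j =>
    (PiLp.continuous_apply 2 _ j).comp hc
  have huj : ∀ j, Continuous fun t => uvec lam γ t j := fun j =>
    (PiLp.continuous_apply 2 _ j).comp hu
  have key : ∀ i j, Continuous fun t => frameMat (γ t) (uvec lam γ t) i j := by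
    intro i j
    fin_cases i
    · fin_cases j
      · exact hcj 0
      · exact hcj 1
      · exact hcj 2
    · fin_cases j
      · exact huj 0
      · exact huj 1
      · exact huj 2
    · fin_cases j
      · exact ((hcj 1).mul (huj 2)).sub ((hcj 2).mul (huj 1))
      · exact ((hcj 2).mul (huj 0)).sub ((hcj 0).mul (huj 2))
      · exact ((hcj 0).mul (huj 1)).sub ((hcj 1).mul (huj 0))
  exact continuous_pi fun i => continuous_pi fun j => key i j

theorem gradient_apply (hl : ContDiff ℝ 1 lam) (x : E3) (j : Fin 3) : gradient lam x j = pd lam j x := by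
  have h1 := (hl.differentiable one_ne_zero x).hasGradientAt.hasFDerivAt.fderiv
  have h2 : fderiv ℝ lam x (EuclideanSpace.single j 1) = inner ℝ (gradient lam x) (EuclideanSpace.single j 1) := by
    rw [h1]; simp
  rw [pd, h2, inner_E3]
  fin_cases j <;> simp

/-- The frame of a geodesic moves along the geodesic vector field. -/
theorem IsGeodesic.frame_deriv (hl : ContDiff ℝ 1 lam) (h : IsGeodesic lam γ) (t : ℝ) :
    (∀ j, HasDerivAt (fun s => (frame lam γ s).1 0 j)
      (Real.exp (-lam (γ t)) * (frame lam γ t).1 1 j) t) ∧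
    (∀ j, HasDerivAt (fun s => (frame lam γ s).1 1 j)
      (-(Real.exp (-lam (γ t)) * (frame lam γ t).1 0 j) +
        (Real.exp (-lam (γ t)) * fderiv ℝ lam (γ t) (row (frame lam γ t) 2)) * (frame lam γ t).1 2 j) t) ∧
    (∀ j, HasDerivAt (fun s => (frame lam γ s).1 2 j)
      (-((Real.exp (-lam (γ t)) * fderiv ℝ lam (γ t) (row (frame lam γ t) 2)) * (frame lam γ t).1 1 j)) t) := by
  set α := Real.exp (-lam (γ t)) with hα
  set e := Real.exp (lam (γ t)) with he
  have hea : e * α = 1 := by rw [he, hα, ← Real.exp_add]; simp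
  have r0 : ∀ s j, (frame lam γ s).1 0 j = γ s j := fun s j => by
    rw [← row_apply, h.row_zero]
  have r1 : ∀ s j, (frame lam γ s).1 1 j = uvec lam γ s j := fun s j => by
    rw [← row_apply, h.row_one]
  have r20 : ∀ s, (frame lam γ s).1 2 0 = γ s 1 * uvec lam γ s 2 - γ s 2 * uvec lam γ s 1 := fun s => by
    rw [h.frame_val]; simp [frameMat]
  have r21 : ∀ s, (frame lam γ s).1 2 1 = γ s 2 * uvec lam γ s 0 - γ s 0 * uvec lam γ s 2 := fun s => by
    rw [h.frame_val]; simp [frameMat]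
  have r22 : ∀ s, (frame lam γ s).1 2 2 = γ s 0 * uvec lam γ s 1 - γ s 1 * uvec lam γ s 0 := fun s => by
    rw [h.frame_val]; simp [frameMat]
  have hu : ∀ j, uvec lam γ t j = e * deriv γ t j := fun j => by simp [uvec, he]
  have hγ' : ∀ j, deriv γ t j = α * uvec lam γ t j := fun j => by
    rw [hu j, ← mul_assoc, mul_comm α e, hea, one_mul]
  have hn2 : ‖deriv γ t‖ ^ 2 = α ^ 2 := by
    have h1 : e * ‖deriv γ t‖ = 1 := h.2.2.1 t
    have h2 : ‖deriv γ t‖ = α := by
      have : α * (e * ‖deriv γ t‖) = α := by rw [h1, mul_one]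
      rw [← this, ← mul_assoc, mul_comm α e, hea, one_mul]
    rw [h2]
  -- first rows
  have D0 : ∀ j, HasDerivAt (fun s => γ s j) (α * uvec lam γ t j) t := fun j => by
    rw [← hγ' j]; exact hasDerivAt_coord (h.hasDerivAt t) j
  -- geodesic equation
  obtain ⟨c, hc⟩ := h.2.2.2 t
  set G : Fin 3 → ℝ := fun j => pd lam j (γ t) with hG
  set x : Fin 3 → ℝ := fun j => γ t j with hx
  set u : Fin 3 → ℝ := fun j => uvec lam γ t j with huu
  set w : Fin 3 → ℝ := fun j => (frame lam γ t).1 2 j with hw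
  have hdl : fderiv ℝ lam (γ t) (deriv γ t) = α * (G 0 * u 0 + G 1 * u 1 + G 2 * u 2) := by
    rw [fderiv_eq_sum, hγ' 0, hγ' 1, hγ' 2]; simp only [hG, huu]; ring
  have hdw : fderiv ℝ lam (γ t) (row (frame lam γ t) 2) = G 0 * w 0 + G 1 * w 1 + G 2 * w 2 := by
    rw [fderiv_eq_sum]; simp only [row_apply, hG, hw]; ring
  have hcj : ∀ j, deriv (deriv γ) t j = c * x j - 2 * (α * (G 0 * u 0 + G 1 * u 1 + G 2 * u 2)) * (α * u j) +
      α ^ 2 * G j := by
    intro j
    have h1 := congrArg (fun z : E3 => z j) hc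
    simp only [PiLp.sub_apply, PiLp.add_apply, PiLp.smul_apply, smul_eq_mul] at h1
    rw [hdl, hn2, gradient_apply hl, hγ' j] at h1
    simp only [hx, huu, hG]
    simp only [hx, huu, hG] at h1
    linear_combination h1
  have sx : x 0 ^ 2 + x 1 ^ 2 + x 2 ^ 2 = 1 := by
    have := rot_sum_sq (frame lam γ t) 0
    simpa only [r0] using this
  have xu : x 0 * u 0 + x 1 * u 1 + x 2 * u 2 = 0 := by
    have := rot_sum_mul (frame lam γ t) (i := 0) (j := 1) (by decide)
    simpa only [r0, r1] using this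
  have hcc : c + α ^ 2 * (G 0 * x 0 + G 1 * x 1 + G 2 * x 2) + α ^ 2 = 0 := by
    have h1 := h.inner_deriv2 t
    rw [inner_E3, hn2, hcj 0, hcj 1, hcj 2] at h1
    change x 0 * _ + x 1 * _ + x 2 * _ + _ = 0 at h1
    linear_combination h1 - c * sx + 2 * (α * (G 0 * u 0 + G 1 * u 1 + G 2 * u 2)) * α * xu
  have gT : (frame lam γ t).1.transpose * (frame lam γ t).1 = 1 := mul_eq_one_comm.1 (rot_mul_transpose _)
  have col : ∀ j k, x j * x k + u j * u k + w j * w k = if j = k then 1 else 0 := by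
    intro j k
    have := congrFun (congrFun gT j) k
    simp only [Matrix.mul_apply, Fin.sum_univ_three, Matrix.one_apply, Matrix.transpose_apply, r0, r1] at this
    exact this
  have hGj : ∀ j, G j = (G 0 * x 0 + G 1 * x 1 + G 2 * x 2) * x j + (G 0 * u 0 + G 1 * u 1 + G 2 * u 2) * u j +
      (G 0 * w 0 + G 1 * w 1 + G 2 * w 2) * w j := by
    intro j
    have c0 := col 0 j
    have c1 := col 1 j
    have c2 := col 2 j
    have e0 : G j = G 0 * (if (0 : Fin 3) = j then 1 else 0) + G 1 * (if (1 : Fin 3) = j then 1 else 0) +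
        G 2 * (if (2 : Fin 3) = j then 1 else 0) := by
      fin_cases j <;> simp
    rw [← c0, ← c1, ← c2] at e0
    rw [e0]
    ring
  have D1 : ∀ j, HasDerivAt (fun s => uvec lam γ s j) (-(α * x j) + (α * (G 0 * w 0 + G 1 * w 1 + G 2 * w 2)) * w j) t := by
    intro j
    have hA : HasDerivAt (fun s => Real.exp (lam (γ s))) (e * fderiv ℝ lam (γ t) (deriv γ t)) t := by
      have := ((hl.differentiable one_ne_zero (γ t)).hasFDerivAt.comp_hasDerivAt t (h.hasDerivAt t)).exp
      exact this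
    have hB := hA.fun_mul (hasDerivAt_coord (h.hasDerivAt2 t) j)
    have hfun : (fun s => uvec lam γ s j) = fun s => Real.exp (lam (γ s)) * deriv γ s j := by
      funext s; simp [uvec]
    rw [hfun]
    refine hB.congr_deriv ?_
    rw [hdl, hγ' j, hcj j]
    change e * (α * (G 0 * u 0 + G 1 * u 1 + G 2 * u 2)) * (α * u j) + e * (c * x j - 2 * (α * (G 0 * u 0 + G 1 * u 1 + G 2 * u 2)) * (α * u j) +
      α ^ 2 * G j) = _
    have hcc' : c = -(α ^ 2 * (G 0 * x 0 + G 1 * x 1 + G 2 * x 2)) - α ^ 2 := by linarith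
    have hg := hGj j
    generalize G j = Gj at hg ⊢
    subst hg
    rw [hcc']
    linear_combination (α * (-x j + (G 0 * w 0 + G 1 * w 1 + G 2 * w 2) * w j)) * hea
  refine ⟨?_, ?_, ?_⟩
  · intro j
    simp only [r0, r1]
    exact D0 j
  · intro j
    simp only [r0, r1]
    rw [hdw]
    exact D1 j
  · intro j
    rw [hdw]
    simp only [r1]
    have hw0 : w 0 = x 1 * u 2 - x 2 * u 1 := r20 t
    have hw1 : w 1 = x 2 * u 0 - x 0 * u 2 := r21 t
    have hw2 : w 2 = x 0 * u 1 - x 1 * u 0 := r22 t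
    set β := α * (G 0 * w 0 + G 1 * w 1 + G 2 * w 2) with hβ
    fin_cases j
    · simp only [Fin.zero_eta, r20]
      refine (((D0 1).fun_mul (D1 2)).fun_sub ((D0 2).fun_mul (D1 1))).congr_deriv ?_
      change α * u 1 * u 2 + x 1 * (-(α * x 2) + β * w 2) - (α * u 2 * u 1 + x 2 * (-(α * x 1) + β * w 1)) = -(β * u 0)
      rw [hw1, hw2]
      linear_combination (β * x 0) * xu - (β * u 0) * sx
    · simp only [Fin.mk_one, r21]
      refine (((D0 2).fun_mul (D1 0)).fun_sub ((D0 0).fun_mul (D1 2))).congr_deriv ?_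
      change α * u 2 * u 0 + x 2 * (-(α * x 0) + β * w 0) - (α * u 0 * u 2 + x 0 * (-(α * x 2) + β * w 2)) = -(β * u 1)
      rw [hw0, hw2]
      linear_combination (β * x 1) * xu - (β * u 1) * sx
    · change HasDerivAt (fun s => (frame lam γ s).1 2 2) (-(β * u 2)) t
      simp only [r22]
      refine (((D0 0).fun_mul (D1 1)).fun_sub ((D0 1).fun_mul (D1 0))).congr_deriv ?_
      change α * u 0 * u 1 + x 0 * (-(α * x 1) + β * w 1) - (α * u 1 * u 0 + x 1 * (-(α * x 0) + β * w 0)) = -(β * u 2)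
      rw [hw0, hw1]
      linear_combination (β * x 2) * xu - (β * u 2) * sx

/-- The derivative of `H(x) p` along a geodesic. -/
theorem IsGeodesic.hasDerivAt_fun (hl : ContDiff ℝ 1 lam) (h : IsGeodesic lam γ) {H : E3 → ℝ}
    (hH : ContDiff ℝ 1 H) (p : PR) (t : ℝ) :
    HasDerivAt (fun s => (H (γ s) : ℂ) * ev p (frame lam γ s)) (Yfun lam H p (frame lam γ t)) t := by
  obtain ⟨f0, f1, f2⟩ := h.frame_deriv hl t
  have h1 := hasDerivAt_eval (fun s => (frame lam γ s).1) t _ _ f0 f1 f2 p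
  have h2 : HasDerivAt (fun s => H (γ s)) (fderiv ℝ H (γ t) (deriv γ t)) t :=
    (hH.differentiable one_ne_zero (γ t)).hasFDerivAt.comp_hasDerivAt t (h.hasDerivAt t)
  refine (h2.ofReal_comp.fun_mul h1).congr_deriv ?_
  have hd : deriv γ t = Real.exp (-lam (γ t)) • row (frame lam γ t) 1 := by
    rw [h.row_one, uvec, smul_smul, ← Real.exp_add]
    simp
  rw [Yfun, h.row_zero, hd, map_smul, smul_eq_mul]
  simp only [ev, Complex.ofReal_mul]
  ring

/-- The integral of the derivative over a closed geodesic vanishes. -/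
theorem IsClosedGeodesic.integral_Yfun_eq_zero (hl : ContDiff ℝ 1 lam) {T : ℝ} (h : IsClosedGeodesic lam γ T)
    {H : E3 → ℝ} (hH : ContDiff ℝ 1 H) (p : PR) :
    ∫ t in (0 : ℝ)..T, Yfun lam H p (frame lam γ t) = 0 := by
  obtain ⟨hg, -, hper⟩ := h
  rw [intervalIntegral.integral_eq_sub_of_hasDerivAt (fun t _ => hg.hasDerivAt_fun hl hH p t)
    (((continuous_Yfun hl hH p).comp (hg.continuous_frame hl)).intervalIntegrable _ _)]
  have h0 : γ T = γ 0 := by simpa using hper 0
  have h1 : deriv γ T = deriv γ 0 := by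
    have h2 : deriv (fun t => γ (t + T)) 0 = deriv γ T := by
      rw [deriv_comp_add_const]; simp
    have h3 : (fun t => γ (t + T)) = γ := funext hper
    rw [← h2, h3]
  have hf : frame lam γ T = frame lam γ 0 := by
    unfold frame uvec
    rw [h0, h1]
  rw [hf, h0, sub_self]

end

end Pool.Agent.Helper82.GD
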