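import Pool.Agent.Helper82.GD.Eval

/-!
# Integrals of derivatives over the rotation group
-/

namespace Pool.Agent.Helper82.GD

open MeasureTheory MvPolynomial Filter Topology

theorem integrable_cont {F : Type*} [NormedAddCommGroup F] {Ψ : Rot → F} (h : Continuous Ψ) :
    Integrable Ψ haarRot :=
  h.integrable_of_hasCompactSupport (HasCompactSupport.of_compactSpace _)

/-- The integral of a derivative along a flow by left translations vanishes. -/
theorem integral_deriv_eq_zero (ρ : ℝ → Rot) (Ψ Ψ' : Rot → ℂ) (hΨ : Continuous Ψ) (hΨ' : Continuous Ψ')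
    (hd : ∀ g t, HasDerivAt (fun s => Ψ (ρ s * g)) (Ψ' (ρ t * g)) t) : ∫ g, Ψ' g ∂haarRot = 0 := by
  obtain ⟨K, hK⟩ : ∃ K, ∀ g, ‖Ψ' g‖ ≤ K := by
    obtain ⟨K, hK⟩ := (isCompact_range (hΨ'.norm)).bddAbove
    exact ⟨K, fun g => hK ⟨g, rfl⟩⟩
  have key := hasDerivAt_integral_of_dominated_loc_of_deriv_le (μ := haarRot) (𝕜 := ℝ) (bound := fun _ => K)
    (F := fun s g => Ψ (ρ s * g)) (F' := fun s g => Ψ' (ρ s * g)) (x₀ := 0) (s := Set.univ) Filter.univ_mem
    (Eventually.of_forall fun s => (hΨ.comp (continuous_const_mul (ρ s))).aestronglyMeasurable)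
    (integrable_cont (hΨ.comp (continuous_const_mul (ρ 0))))
    (hΨ'.comp (continuous_const_mul (ρ 0))).aestronglyMeasurable
    (Eventually.of_forall fun g s _ => hK _) (integrable_const K)
    (Eventually.of_forall fun g s _ => hd g s)
  have h1 : (fun s => ∫ g, Ψ (ρ s * g) ∂haarRot) = fun _ => ∫ g, Ψ g ∂haarRot := by
    funext s
    exact integral_mul_left_eq_self Ψ (ρ s)
  have h2 := key.2
  rw [h1] at h2
  have h3 := h2.unique (hasDerivAt_const (0 : ℝ) (∫ g, Ψ g ∂haarRot))
  rw [integral_mul_left_eq_self Ψ' (ρ 0)] at h3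
  exact h3

theorem hasDerivAt_E3 {f : ℝ → E3} {f' : E3} {t : ℝ} (h : ∀ j, HasDerivAt (fun s => f s j) (f' j) t) :
    HasDerivAt f f' t := by
  have h1 : HasDerivAt (fun s => (fun j => f s j : Fin 3 → ℝ)) (fun j => f' j) t := hasDerivAt_pi.2 h
  have h2 := (PiLp.hasStrictFDerivAt_toLp (𝕜 := ℝ) 2 (E := fun _ : Fin 3 => ℝ)
    (fun j => f t j)).hasFDerivAt.comp_hasDerivAt t h1
  exact h2

theorem hasDerivAt_coord {f : ℝ → E3} {f' : E3} {t : ℝ} (h : HasDerivAt f f' t) (j : Fin 3) :
    HasDerivAt (fun s => f s j) (f' j) t :=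
  ((PiLp.proj (𝕜 := ℝ) 2 (fun _ : Fin 3 => ℝ) j).hasFDerivAt).comp_hasDerivAt t h

/-- Derivative of a function of the position along the first flow. -/
theorem hasDerivAt_base_flowX (H : E3 → ℝ) (hH : Differentiable ℝ H) (g : Rot) (t : ℝ) :
    HasDerivAt (fun s => H (row (flowX s * g) 0)) (fderiv ℝ H (row (flowX t * g) 0) (row (flowX t * g) 1)) t := by
  have hr : HasDerivAt (fun s => row (flowX s * g) 0) (row (flowX t * g) 1) t := by
    refine hasDerivAt_E3 fun j => ?_
    simp only [row_apply, flowX_mul]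
    refine (((Real.hasDerivAt_cos t).mul_const (g.1 0 j)).fun_add
      ((Real.hasDerivAt_sin t).mul_const (g.1 1 j))).congr_deriv ?_
    ring
  exact (hH _).hasFDerivAt.comp_hasDerivAt t hr

theorem row_flowV_zero (t : ℝ) (g : Rot) : row (flowV t * g) 0 = row g 0 := by
  ext j
  simp only [row_apply, (flowV_mul t g j).1]

theorem integral_flowX (H : E3 → ℝ) (hH : ContDiff ℝ 1 H) (p : PR) :
    ∫ g, ((fderiv ℝ H (row g 0) (row g 1) : ℝ) * ev p g + (H (row g 0) : ℂ) * (ev (Dp p) g + ev (Dm p) g)) ∂haarRot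
      = 0 := by
  have hcH : Continuous fun g : Rot => (H (row g 0) : ℂ) :=
    Complex.continuous_ofReal.comp (hH.continuous.comp (continuous_row 0))
  have hcd : Continuous fun g : Rot => ((fderiv ℝ H (row g 0) (row g 1) : ℝ) : ℂ) := by
    refine Complex.continuous_ofReal.comp ?_
    exact ((hH.continuous_fderiv one_ne_zero).comp (continuous_row 0)).clm_apply (continuous_row 1)
  refine integral_deriv_eq_zero flowX (fun g => (H (row g 0) : ℂ) * ev p g) _ (hcH.mul (continuous_ev p)) ?_ ?_
  · exact (hcd.mul (continuous_ev p)).add (hcH.mul ((continuous_ev _).add (continuous_ev _)))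
  · intro g t
    have h1 := (hasDerivAt_base_flowX H (hH.differentiable one_ne_zero) g t).ofReal_comp
    refine (h1.fun_mul (hasDerivAt_flowX p g t)).congr_deriv ?_
    rfl

theorem integral_flowV (b : E3 → ℝ) (hb : Continuous b) (p : PR) :
    ∫ g, (b (row g 0) : ℂ) * ev (Wt p) g ∂haarRot = 0 := by
  have hcb : Continuous fun g : Rot => (b (row g 0) : ℂ) :=
    Complex.continuous_ofReal.comp (hb.comp (continuous_row 0))
  have h := integral_deriv_eq_zero flowV (fun g => (b (row g 0) : ℂ) * ev p g)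
    (fun g => (b (row g 0) : ℂ) * (Complex.I * ev (Wt p) g)) (hcb.mul (continuous_ev p))
    (hcb.mul (continuous_const.mul (continuous_ev _))) ?_
  · have : ∫ g, (b (row g 0) : ℂ) * (Complex.I * ev (Wt p) g) ∂haarRot =
        Complex.I * ∫ g, (b (row g 0) : ℂ) * ev (Wt p) g ∂haarRot := by
      rw [← integral_const_mul]
      congr 1
      funext g
      ring
    rw [this] at h
    exact (mul_eq_zero.1 h).resolve_left Complex.I_ne_zero
  · intro g t
    simp only [row_flowV_zero]
    exact (hasDerivAt_flowV p g t).const_mul _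

/-- Partial derivatives. -/
noncomputable def pd (lam : E3 → ℝ) (j : Fin 3) (x : E3) : ℝ := fderiv ℝ lam x (EuclideanSpace.single j 1)

theorem continuous_pd {lam : E3 → ℝ} (h : ContDiff ℝ 1 lam) (j : Fin 3) : Continuous (pd lam j) :=
  (h.continuous_fderiv one_ne_zero).clm_apply continuous_const

theorem fderiv_eq_sum (lam : E3 → ℝ) (x u : E3) :
    fderiv ℝ lam x u = u 0 * pd lam 0 x + u 1 * pd lam 1 x + u 2 * pd lam 2 x := by
  have hu : u = u 0 • EuclideanSpace.single (0 : Fin 3) (1 : ℝ) + u 1 • EuclideanSpace.single (1 : Fin 3) (1 : ℝ) +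
      u 2 • EuclideanSpace.single (2 : Fin 3) (1 : ℝ) := by
    ext j
    fin_cases j <;> simp
  conv_lhs => rw [hu]
  simp [pd]

/-- The derivative along the geodesic vector field of `exp(2 lam) g0` of the function `H(x) p`. -/
noncomputable def Yfun (lam H : E3 → ℝ) (p : PR) (g : Rot) : ℂ :=
  (Real.exp (-lam (row g 0)) : ℂ) * ((fderiv ℝ H (row g 0) (row g 1) : ℝ) * ev p g +
    (H (row g 0) : ℂ) * (ev (Dp p) g + ev (Dm p) g) +
    (H (row g 0) : ℂ) * (fderiv ℝ lam (row g 0) (row g 2) : ℝ) * (Complex.I * ev (Wt p) g))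

theorem continuous_Yfun {lam H : E3 → ℝ} (hl : ContDiff ℝ 1 lam) (hH : ContDiff ℝ 1 H) (p : PR) :
    Continuous (Yfun lam H p) := by
  have hcH : Continuous fun g : Rot => (H (row g 0) : ℂ) :=
    Complex.continuous_ofReal.comp (hH.continuous.comp (continuous_row 0))
  have hcd : Continuous fun g : Rot => ((fderiv ℝ H (row g 0) (row g 1) : ℝ) : ℂ) := by
    refine Complex.continuous_ofReal.comp ?_
    exact ((hH.continuous_fderiv one_ne_zero).comp (continuous_row 0)).clm_apply (continuous_row 1)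
  have hcl : Continuous fun g : Rot => ((fderiv ℝ lam (row g 0) (row g 2) : ℝ) : ℂ) := by
    refine Complex.continuous_ofReal.comp ?_
    exact ((hl.continuous_fderiv one_ne_zero).comp (continuous_row 0)).clm_apply (continuous_row 2)
  have hce : Continuous fun g : Rot => (Real.exp (-lam (row g 0)) : ℂ) :=
    Complex.continuous_ofReal.comp (Real.continuous_exp.comp (hl.continuous.comp (continuous_row 0)).neg)
  unfold Yfun
  exact hce.mul (((hcd.mul (continuous_ev p)).add (hcH.mul ((continuous_ev _).add (continuous_ev _)))).add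
    ((hcH.mul hcl).mul (continuous_const.mul (continuous_ev _))))

/-- The third vector of the frame as polynomial. -/
noncomputable def wP (j : Fin 3) : PR := C (Complex.I / 2) * (X (1, j) - X (2, j))

theorem ev_wP (j : Fin 3) (g : Rot) : ev (wP j) g = (g.1 2 j : ℂ) := by
  simp [wP]
  linear_combination (-(g.1 2 j : ℂ)) * Complex.I_mul_I

theorem ev_Wt_wP (j : Fin 3) (g : Rot) : Complex.I * ev (Wt (wP j)) g = -(g.1 1 j : ℂ) := by
  simp [wP, der_C_mul]
  linear_combination ((g.1 1 j : ℂ)) * Complex.I_mul_I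

/-- The Liouville integral of a derivative along the geodesic vector field vanishes. -/
theorem integral_Yfun {lam H : E3 → ℝ} (hl : ContDiff ℝ 1 lam) (hH : ContDiff ℝ 1 H) (p : PR) :
    ∫ g, Yfun lam H p g * (Real.exp (2 * lam (row g 0)) : ℂ) ∂haarRot = 0 := by
  set K : E3 → ℝ := fun x => Real.exp (lam x) * H x with hK
  have hKc : ContDiff ℝ 1 K := (hl.exp).mul hH
  have hKd : ∀ x u, fderiv ℝ K x u = Real.exp (lam x) * (fderiv ℝ H x u) +
      Real.exp (lam x) * H x * (fderiv ℝ lam x u) := by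
    intro x u
    have h1 : HasFDerivAt (fun x => Real.exp (lam x)) (Real.exp (lam x) • fderiv ℝ lam x) x :=
      (hl.differentiable one_ne_zero x).hasFDerivAt.exp
    have h2 := (h1.mul (hH.differentiable one_ne_zero x).hasFDerivAt).fderiv
    have h3 : fderiv ℝ K x = Real.exp (lam x) • fderiv ℝ H x + H x • (Real.exp (lam x) • fderiv ℝ lam x) := h2
    rw [h3]
    simp
    ring
  have e1 := integral_flowX K hKc p
  have e2 := fun j => integral_flowV (fun x => K x * pd lam j x) (hKc.continuous.mul (continuous_pd hl j)) (wP j * p)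
  have hint1 : Integrable (fun g => ((fderiv ℝ K (row g 0) (row g 1) : ℝ) * ev p g +
      (K (row g 0) : ℂ) * (ev (Dp p) g + ev (Dm p) g))) haarRot := by
    refine integrable_cont ?_
    have hcH : Continuous fun g : Rot => (K (row g 0) : ℂ) :=
      Complex.continuous_ofReal.comp (hKc.continuous.comp (continuous_row 0))
    have hcd : Continuous fun g : Rot => ((fderiv ℝ K (row g 0) (row g 1) : ℝ) : ℂ) := by
      refine Complex.continuous_ofReal.comp ?_
      exact ((hKc.continuous_fderiv one_ne_zero).comp (continuous_row 0)).clm_apply (continuous_row 1)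
    exact (hcd.mul (continuous_ev p)).add (hcH.mul ((continuous_ev _).add (continuous_ev _)))
  have hint2 : ∀ j, Integrable (fun g => Complex.I * (((K (row g 0) * pd lam j (row g 0) : ℝ) : ℂ) *
      ev (Wt (wP j * p)) g)) haarRot := by
    intro j
    refine integrable_cont ?_
    have hcb : Continuous fun g : Rot => ((K (row g 0) * pd lam j (row g 0) : ℝ) : ℂ) :=
      Complex.continuous_ofReal.comp ((hKc.continuous.mul (continuous_pd hl j)).comp (continuous_row 0))
    exact continuous_const.mul (hcb.mul (continuous_ev _))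
  have hpt : ∀ g, Yfun lam H p g * (Real.exp (2 * lam (row g 0)) : ℂ) =
      ((fderiv ℝ K (row g 0) (row g 1) : ℝ) * ev p g + (K (row g 0) : ℂ) * (ev (Dp p) g + ev (Dm p) g)) +
      (Complex.I * (((K (row g 0) * pd lam 0 (row g 0) : ℝ) : ℂ) * ev (Wt (wP 0 * p)) g) +
      Complex.I * (((K (row g 0) * pd lam 1 (row g 0) : ℝ) : ℂ) * ev (Wt (wP 1 * p)) g) +
      Complex.I * (((K (row g 0) * pd lam 2 (row g 0) : ℝ) : ℂ) * ev (Wt (wP 2 * p)) g)) := by
    intro g
    have hexp : (Real.exp (-lam (row g 0)) : ℂ) * (Real.exp (2 * lam (row g 0)) : ℂ) =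
        (Real.exp (lam (row g 0)) : ℂ) := by
      rw [← Complex.ofReal_mul, ← Real.exp_add]
      congr 2
      ring
    have hW : ∀ j, Complex.I * ev (Wt (wP j * p)) g = (g.1 2 j : ℂ) * (Complex.I * ev (Wt p) g) -
        (g.1 1 j : ℂ) * ev p g := by
      intro j
      rw [Derivation.leibniz, smul_eq_mul, smul_eq_mul, ev_add, ev_mul, ev_mul, ev_wP]
      linear_combination ev p g * ev_Wt_wP j g
    have hYe : Yfun lam H p g * (Real.exp (2 * lam (row g 0)) : ℂ) =
        (Real.exp (lam (row g 0)) : ℂ) * ((fderiv ℝ H (row g 0) (row g 1) : ℝ) * ev p g +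
    (H (row g 0) : ℂ) * (ev (Dp p) g + ev (Dm p) g) +
    (H (row g 0) : ℂ) * (fderiv ℝ lam (row g 0) (row g 2) : ℝ) * (Complex.I * ev (Wt p) g)) := by
      unfold Yfun
      rw [← hexp]; ring
    rw [hYe, hKd, fderiv_eq_sum lam _ (row g 2), fderiv_eq_sum lam _ (row g 1)]
    simp only [row_apply, hK, Complex.ofReal_mul, Complex.ofReal_add]
    linear_combination -(Real.exp (lam (row g 0)) : ℂ) * (H (row g 0) : ℂ) * ((pd lam 0 (row g 0) : ℂ) * hW 0 +
      (pd lam 1 (row g 0) : ℂ) * hW 1 + (pd lam 2 (row g 0) : ℂ) * hW 2)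
  simp_rw [hpt]
  have h012 := integral_add hint1 (((hint2 0).add (hint2 1)).add (hint2 2))
  have h01 := integral_add ((hint2 0).add (hint2 1)) (hint2 2)
  have h00 := integral_add (hint2 0) (hint2 1)
  simp only [Pi.add_apply] at h012 h01 h00
  rw [h012, e1, zero_add, h01, h00, integral_const_mul, integral_const_mul, integral_const_mul, e2 0, e2 1, e2 2]
  simp

end Pool.Agent.Helper82.GD
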