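import Mathlib

/-!
# The rotation group of Euclidean three-space as a compact topological group
-/

namespace Pool.Agent.Helper82.GD

open MeasureTheory Filter Topology

/-- Euclidean three-space. -/
abbrev E3 := EuclideanSpace ℝ (Fin 3)

/-- The rotation group, whose elements are the positively oriented orthonormal frames (the rows). -/
abbrev Rot := Matrix.specialOrthogonalGroup (Fin 3) ℝ

theorem mem_rot_iff (A : Matrix (Fin 3) (Fin 3) ℝ) :
    A ∈ Matrix.specialOrthogonalGroup (Fin 3) ℝ ↔ A * A.transpose = 1 ∧ A.det = 1 := by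
  rw [Matrix.mem_specialUnitaryGroup_iff, Matrix.mem_unitaryGroup_iff]
  simp [Matrix.star_eq_conjTranspose]

theorem rot_mul_transpose (g : Rot) : g.1 * g.1.transpose = 1 := ((mem_rot_iff _).1 g.2).1

theorem rot_det (g : Rot) : g.1.det = 1 := ((mem_rot_iff _).1 g.2).2

instance instContinuousStarRot : ContinuousStar Rot where
  continuous_star := continuous_induced_rng.mpr continuous_subtype_val.star

instance instContinuousInvRot : ContinuousInv Rot where
  continuous_inv := continuous_star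

instance instIsTopologicalGroupRot : IsTopologicalGroup Rot where

instance instSecondCountableMat : SecondCountableTopology (Matrix (Fin 3) (Fin 3) ℝ) :=
  inferInstanceAs (SecondCountableTopology (Fin 3 → Fin 3 → ℝ))

instance instSecondCountableRot : SecondCountableTopology Rot :=
  TopologicalSpace.Subtype.secondCountableTopology _

theorem rot_sum_sq (g : Rot) (i : Fin 3) : g.1 i 0 ^ 2 + g.1 i 1 ^ 2 + g.1 i 2 ^ 2 = 1 := by
  have h := congrFun (congrFun (rot_mul_transpose g) i) i
  simp [Matrix.mul_apply, Fin.sum_univ_three] at h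
  nlinarith [h]

theorem rot_sum_mul (g : Rot) {i j : Fin 3} (hij : i ≠ j) :
    g.1 i 0 * g.1 j 0 + g.1 i 1 * g.1 j 1 + g.1 i 2 * g.1 j 2 = 0 := by
  have h := congrFun (congrFun (rot_mul_transpose g) i) j
  simpa [Matrix.mul_apply, Fin.sum_univ_three, hij] using h

theorem rot_abs_le (g : Rot) (i j : Fin 3) : |g.1 i j| ≤ 1 := by
  have h := rot_sum_sq g i
  rw [abs_le]
  fin_cases j <;> simp <;> constructor <;> nlinarith [sq_nonneg (g.1 i 0), sq_nonneg (g.1 i 1), sq_nonneg (g.1 i 2)]

theorem isClosed_rot : IsClosed (Matrix.specialOrthogonalGroup (Fin 3) ℝ : Set (Matrix (Fin 3) (Fin 3) ℝ)) := by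
  have : (Matrix.specialOrthogonalGroup (Fin 3) ℝ : Set (Matrix (Fin 3) (Fin 3) ℝ)) =
      {A | A * A.transpose = 1} ∩ {A | A.det = 1} := by
    ext A
    exact mem_rot_iff A
  rw [this]
  refine IsClosed.inter ?_ ?_
  · exact isClosed_eq (by fun_prop) continuous_const
  · exact isClosed_eq (by fun_prop) continuous_const

instance instCompactSpaceRot : CompactSpace Rot := by
  have hbox : IsCompact (Set.pi Set.univ fun _ : Fin 3 => Set.pi Set.univ fun _ : Fin 3 => Set.Icc (-1 : ℝ) 1) :=
    isCompact_univ_pi fun _ => isCompact_univ_pi fun _ => isCompact_Icc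
  have h : IsCompact (Matrix.specialOrthogonalGroup (Fin 3) ℝ : Set (Matrix (Fin 3) (Fin 3) ℝ)) := by
    refine IsCompact.of_isClosed_subset (s := (Set.pi Set.univ fun _ : Fin 3 => Set.pi Set.univ fun _ : Fin 3 =>
      Set.Icc (-1 : ℝ) 1 : Set (Matrix (Fin 3) (Fin 3) ℝ))) hbox isClosed_rot ?_
    intro A hA i _ j _
    exact abs_le.1 (rot_abs_le ⟨A, hA⟩ i j)
  exact isCompact_iff_compactSpace.1 h

instance instMeasurableSpaceRot : MeasurableSpace Rot := borel Rot

instance instBorelSpaceRot : BorelSpace Rot := ⟨rfl⟩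

/-- The Haar probability measure of the rotation group. -/
noncomputable def haarRot : Measure Rot := Measure.haarMeasure ⊤

instance instIsHaarRot : haarRot.IsHaarMeasure := by
  unfold haarRot; infer_instance

instance instIsProbRot : IsProbabilityMeasure haarRot := ⟨by
  have := Measure.haarMeasure_self (K₀ := (⊤ : TopologicalSpace.PositiveCompacts Rot))
  simpa [haarRot] using this⟩

/-- The row `i` of a rotation matrix, as a vector. -/
noncomputable def row (g : Rot) (i : Fin 3) : E3 := WithLp.toLp 2 (g.1 i)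

@[simp] theorem row_apply (g : Rot) (i j : Fin 3) : row g i j = g.1 i j := rfl

theorem continuous_entry (i j : Fin 3) : Continuous fun g : Rot => g.1 i j :=
  (continuous_apply_apply i j).comp continuous_subtype_val

theorem continuous_row (i : Fin 3) : Continuous fun g : Rot => row g i :=
  (PiLp.continuous_toLp 2 _).comp ((continuous_apply i).comp continuous_subtype_val)

theorem norm_row (g : Rot) (i : Fin 3) : ‖row g i‖ = 1 := by
  rw [EuclideanSpace.norm_eq, Real.sqrt_eq_one]
  simp only [Fin.sum_univ_three, row_apply, Real.norm_eq_abs, sq_abs]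
  exact rot_sum_sq g i

/-- The third row is the cross product of the first two. -/
theorem rot_third (g : Rot) :
    g.1 2 0 = g.1 0 1 * g.1 1 2 - g.1 0 2 * g.1 1 1 ∧
    g.1 2 1 = g.1 0 2 * g.1 1 0 - g.1 0 0 * g.1 1 2 ∧
    g.1 2 2 = g.1 0 0 * g.1 1 1 - g.1 0 1 * g.1 1 0 := by
  have hdet := rot_det g
  rw [Matrix.det_fin_three] at hdet
  have h00 := rot_sum_sq g 0
  have h11 := rot_sum_sq g 1
  have h22 := rot_sum_sq g 2
  have h01 := rot_sum_mul g (i := 0) (j := 1) (by decide)
  set a0 := g.1 0 0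
  set a1 := g.1 0 1
  set a2 := g.1 0 2
  set b0 := g.1 1 0
  set b1 := g.1 1 1
  set b2 := g.1 1 2
  set c0 := g.1 2 0
  set c1 := g.1 2 1
  set c2 := g.1 2 2
  have key : (c0 - (a1 * b2 - a2 * b1)) ^ 2 + (c1 - (a2 * b0 - a0 * b2)) ^ 2 +
      (c2 - (a0 * b1 - a1 * b0)) ^ 2 = 0 := by
    have e1 : (a1 * b2 - a2 * b1) ^ 2 + (a2 * b0 - a0 * b2) ^ 2 + (a0 * b1 - a1 * b0) ^ 2 =
        (a0 ^ 2 + a1 ^ 2 + a2 ^ 2) * (b0 ^ 2 + b1 ^ 2 + b2 ^ 2) - (a0 * b0 + a1 * b1 + a2 * b2) ^ 2 := by ring
    rw [h00, h11, h01] at e1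
    nlinarith [e1, h22, hdet]
  refine ⟨?_, ?_, ?_⟩ <;> nlinarith [sq_nonneg (c0 - (a1 * b2 - a2 * b1)), sq_nonneg (c1 - (a2 * b0 - a0 * b2)),
    sq_nonneg (c2 - (a0 * b1 - a1 * b0)), key]

end Pool.Agent.Helper82.GD
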