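import Pool.Agent.Helper82.GD.Haar

/-!
# The surface measure of the sphere as image of the Haar measure
-/

namespace Pool.Agent.Helper82.GD

open MeasureTheory Filter Topology
open scoped Pointwise

theorem inner_E3 (x y : E3) : inner ℝ x y = x 0 * y 0 + x 1 * y 1 + x 2 * y 2 := by
  simp [PiLp.inner_apply, Fin.sum_univ_three]
  ring

theorem norm_sq_E3 (x : E3) : ‖x‖ ^ 2 = x 0 ^ 2 + x 1 ^ 2 + x 2 ^ 2 := by
  rw [EuclideanSpace.norm_sq_eq]
  simp [Fin.sum_univ_three]

/-- The matrix with rows `x`, `u` and the cross product. -/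
def frameMat (x u : E3) : Matrix (Fin 3) (Fin 3) ℝ :=
  !![x 0, x 1, x 2; u 0, u 1, u 2; x 1 * u 2 - x 2 * u 1, x 2 * u 0 - x 0 * u 2, x 0 * u 1 - x 1 * u 0]

theorem frameMat_mem {x u : E3} (hx : ‖x‖ = 1) (hu : ‖u‖ = 1) (hxu : inner ℝ x u = 0) :
    frameMat x u ∈ Matrix.specialOrthogonalGroup (Fin 3) ℝ := by
  have h1 : x 0 ^ 2 + x 1 ^ 2 + x 2 ^ 2 = 1 := by rw [← norm_sq_E3, hx]; norm_num
  have h2 : u 0 ^ 2 + u 1 ^ 2 + u 2 ^ 2 = 1 := by rw [← norm_sq_E3, hu]; norm_num
  rw [inner_E3] at hxu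
  have h3 : (x 1 * u 2 - x 2 * u 1) ^ 2 + (x 2 * u 0 - x 0 * u 2) ^ 2 + (x 0 * u 1 - x 1 * u 0) ^ 2 = 1 := by
    have : (x 1 * u 2 - x 2 * u 1) ^ 2 + (x 2 * u 0 - x 0 * u 2) ^ 2 + (x 0 * u 1 - x 1 * u 0) ^ 2 =
      (x 0 ^ 2 + x 1 ^ 2 + x 2 ^ 2) * (u 0 ^ 2 + u 1 ^ 2 + u 2 ^ 2) - (x 0 * u 0 + x 1 * u 1 + x 2 * u 2) ^ 2 := by
      ring
    rw [this, h1, h2, hxu]; norm_num
  rw [mem_rot_iff]
  refine ⟨?_, ?_⟩
  · ext i j
    fin_cases i <;> fin_cases j <;> simp [frameMat, Matrix.mul_apply, Fin.sum_univ_three] <;>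
      first
        | linear_combination h1
        | linear_combination h2
        | linear_combination h3
        | linear_combination hxu
        | ring
  · rw [Matrix.det_fin_three]
    simp [frameMat]
    linear_combination h3

open Classical in
/-- The frame at `x` with first tangent vector `u`. -/
noncomputable def mkRot (x u : E3) : Rot :=
  if h : frameMat x u ∈ Matrix.specialOrthogonalGroup (Fin 3) ℝ then ⟨frameMat x u, h⟩ else 1

theorem mkRot_val {x u : E3} (hx : ‖x‖ = 1) (hu : ‖u‖ = 1) (hxu : inner ℝ x u = 0) :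
    (mkRot x u).1 = frameMat x u := by
  unfold mkRot
  rw [dif_pos (frameMat_mem hx hu hxu)]

theorem row_mkRot_zero {x u : E3} (hx : ‖x‖ = 1) (hu : ‖u‖ = 1) (hxu : inner ℝ x u = 0) :
    row (mkRot x u) 0 = x := by
  ext j
  rw [row_apply, mkRot_val hx hu hxu]
  fin_cases j <;> simp [frameMat]

theorem row_mkRot_one {x u : E3} (hx : ‖x‖ = 1) (hu : ‖u‖ = 1) (hxu : inner ℝ x u = 0) :
    row (mkRot x u) 1 = u := by
  ext j
  rw [row_apply, mkRot_val hx hu hxu]
  fin_cases j <;> simp [frameMat]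

theorem exists_unit_orth (x : E3) : ∃ u : E3, ‖u‖ = 1 ∧ inner ℝ x u = 0 := by
  by_cases h : x 0 = 0 ∧ x 1 = 0
  · refine ⟨WithLp.toLp 2 ![1, 0, 0], ?_, ?_⟩
    · have := norm_sq_E3 (WithLp.toLp 2 ![1, 0, 0])
      simp at this
      rcases this with h1 | h1
      · exact h1
      · have := norm_nonneg (WithLp.toLp 2 ![(1 : ℝ), 0, 0] : E3)
        linarith
    · rw [inner_E3]; simp [h.1]
  · have hpos : 0 < x 0 ^ 2 + x 1 ^ 2 := by
      by_contra hcon
      push Not at hcon
      apply h
      constructor <;> nlinarith [sq_nonneg (x 0), sq_nonneg (x 1)]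
    set n := Real.sqrt (x 0 ^ 2 + x 1 ^ 2) with hn
    have hn0 : 0 < n := Real.sqrt_pos.2 hpos
    have hn2 : n ^ 2 = x 0 ^ 2 + x 1 ^ 2 := Real.sq_sqrt hpos.le
    refine ⟨WithLp.toLp 2 ![-(x 1) / n, x 0 / n, 0], ?_, ?_⟩
    · have h1 := norm_sq_E3 (WithLp.toLp 2 ![-(x 1) / n, x 0 / n, 0])
      have h2 : (-(x 1) / n) ^ 2 + (x 0 / n) ^ 2 = 1 := by
        field_simp
        linarith
      simp at h1
      have h3 : ‖(WithLp.toLp 2 ![-(x 1) / n, x 0 / n, 0] : E3)‖ ^ 2 = 1 := by
        rw [h1]; simpa using h2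
      nlinarith [norm_nonneg (WithLp.toLp 2 ![-(x 1) / n, x 0 / n, 0] : E3)]
    · rw [inner_E3]; simp; ring

/-- Every unit vector is the first row of a frame. -/
theorem exists_row_zero {x : E3} (hx : ‖x‖ = 1) : ∃ g : Rot, row g 0 = x := by
  obtain ⟨u, hu, hxu⟩ := exists_unit_orth x
  exact ⟨mkRot x u, row_mkRot_zero hx hu hxu⟩

/-- The action of a rotation on vectors. -/
noncomputable def actL (g : Rot) : E3 →ₗᵢ[ℝ] E3 where
  toFun y := WithLp.toLp 2 (Matrix.vecMul y.ofLp g.1)
  map_add' y z := by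
    ext j
    simp [Matrix.add_vecMul]
  map_smul' c y := by
    ext j
    simp [Matrix.smul_vecMul]
  norm_map' y := by
    have h0 := rot_sum_sq g 0
    have h1 := rot_sum_sq g 1
    have h2 := rot_sum_sq g 2
    have h01 := rot_sum_mul g (i := 0) (j := 1) (by decide)
    have h02 := rot_sum_mul g (i := 0) (j := 2) (by decide)
    have h12 := rot_sum_mul g (i := 1) (j := 2) (by decide)
    have e : ‖(WithLp.toLp 2 (Matrix.vecMul y.ofLp g.1) : E3)‖ ^ 2 = ‖y‖ ^ 2 := by
      rw [norm_sq_E3, norm_sq_E3]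
      simp only [Matrix.vecMul, dotProduct, Fin.sum_univ_three]
      linear_combination (y 0) ^ 2 * h0 + (y 1) ^ 2 * h1 + (y 2) ^ 2 * h2 + 2 * y 0 * y 1 * h01 +
        2 * y 0 * y 2 * h02 + 2 * y 1 * y 2 * h12
    have h3 := norm_nonneg (WithLp.toLp 2 (Matrix.vecMul y.ofLp g.1) : E3)
    have h4 := norm_nonneg y
    exact (sq_eq_sq₀ h3 h4).1 e

theorem actL_row (g h : Rot) : actL g (row h 0) = row (h * g) 0 := by
  ext j
  simp [actL, Matrix.mul_apply, Matrix.vecMul, dotProduct]

/-- The action as a linear isometric equivalence. -/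
noncomputable def actE (g : Rot) : E3 ≃ₗᵢ[ℝ] E3 := (actL g).toLinearIsometryEquiv rfl

@[simp] theorem actE_apply (g : Rot) (y : E3) : actE g y = actL g y := rfl

/-- The action on the unit sphere. -/
noncomputable def actS (g : Rot) (y : Metric.sphere (0 : E3) 1) : Metric.sphere (0 : E3) 1 :=
  ⟨actE g y.1, by
    have := y.2
    rw [mem_sphere_zero_iff_norm] at this ⊢
    rw [(actE g).norm_map, this]⟩

theorem continuous_actS (g : Rot) : Continuous (actS g) :=
  Continuous.subtype_mk ((actE g).continuous.comp continuous_subtype_val) _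

/-- The surface measure is invariant. -/
theorem measurePreserving_actS (g : Rot) :
    MeasurePreserving (actS g) (volume : Measure E3).toSphere (volume : Measure E3).toSphere := by
  refine ⟨(continuous_actS g).measurable, ?_⟩
  refine Measure.ext fun s hs => ?_
  rw [Measure.map_apply (continuous_actS g).measurable hs, Measure.toSphere_apply' _ hs,
    Measure.toSphere_apply' _ ((continuous_actS g).measurable hs)]
  congr 1
  have hset : Set.Ioo (0 : ℝ) 1 • ((↑) '' (actS g ⁻¹' s) : Set E3) =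
      (actE g) ⁻¹' (Set.Ioo (0 : ℝ) 1 • ((↑) '' s : Set E3)) := by
    ext y
    constructor
    · rintro ⟨r, hr, _, ⟨z, hz, rfl⟩, rfl⟩
      exact ⟨r, hr, _, ⟨actS g z, hz, rfl⟩, by simp [actS]⟩
    · rintro ⟨r, hr, _, ⟨z, hz, rfl⟩, hy⟩
      have hy' : r • z.1 = actE g y := hy
      have hn : ‖(actE g).symm z.1‖ = 1 := by
        rw [(actE g).symm.norm_map]; exact mem_sphere_zero_iff_norm.1 z.2
      refine ⟨r, hr, _, ⟨⟨(actE g).symm z.1, mem_sphere_zero_iff_norm.2 hn⟩, ?_, rfl⟩, ?_⟩
      · have : actS g ⟨(actE g).symm z.1, mem_sphere_zero_iff_norm.2 hn⟩ = z := by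
          apply Subtype.ext
          simp only [actS]
          exact (actE g).apply_symm_apply _
        simpa [this] using hz
      · apply (actE g).injective
        simp only
        rw [map_smul, (actE g).apply_symm_apply]
        exact hy'
  rw [hset]
  exact (actE g).measurePreserving.measure_preimage_emb (actE g).toHomeomorph.measurableEmbedding _

theorem integral_actS (g : Rot) (a : E3 → ℝ) :
    ∫ y : Metric.sphere (0 : E3) 1, a (actL g y) ∂(volume : Measure E3).toSphere =
      ∫ y : Metric.sphere (0 : E3) 1, a y ∂(volume : Measure E3).toSphere := by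
  have hemb : MeasurableEmbedding (actS g) := by
    refine Topology.IsClosedEmbedding.measurableEmbedding ?_
    refine (continuous_actS g).isClosedEmbedding ?_
    intro y z hyz
    apply Subtype.ext
    have := congrArg Subtype.val hyz
    exact (actE g).injective this
  exact (measurePreserving_actS g).integral_comp hemb (fun y : Metric.sphere (0 : E3) 1 => a y)

/-- The surface measure is the image of the Haar measure, up to total mass. -/
theorem integral_sphere_eq (a : E3 → ℝ) (ha : Continuous a) :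
    ∫ y : Metric.sphere (0 : E3) 1, a y ∂(volume : Measure E3).toSphere =
      ((volume : Measure E3).toSphere.real Set.univ) * ∫ g, a (row g 0) ∂haarRot := by
  have hcont : Continuous fun q : Rot × Metric.sphere (0 : E3) 1 => a (actL q.1 q.2.1) := by
    refine ha.comp ?_
    refine (PiLp.continuous_toLp 2 _).comp ?_
    have h1 : Continuous fun q : Rot × Metric.sphere (0 : E3) 1 => (q.2.1.ofLp : Fin 3 → ℝ) :=
      (PiLp.continuous_ofLp 2 _).comp (continuous_subtype_val.comp continuous_snd)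
    have h2 : Continuous fun q : Rot × Metric.sphere (0 : E3) 1 => (q.1.1 : Matrix (Fin 3) (Fin 3) ℝ) :=
      continuous_subtype_val.comp continuous_fst
    exact h1.matrix_vecMul h2
  have hint : Integrable (Function.uncurry fun (g : Rot) (y : Metric.sphere (0 : E3) 1) => a (actL g y.1))
      (haarRot.prod (volume : Measure E3).toSphere) :=
    hcont.integrable_of_hasCompactSupport (HasCompactSupport.of_compactSpace _)
  have h1 := integral_integral_swap hint
  simp_rw [integral_actS] at h1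
  rw [integral_const] at h1
  simp only [probReal_univ, smul_eq_mul, one_mul] at h1
  rw [h1]
  have h2 : ∀ y : Metric.sphere (0 : E3) 1, ∫ g, a (actL g y.1) ∂haarRot = ∫ g, a (row g 0) ∂haarRot := by
    intro y
    obtain ⟨h, hh⟩ := exists_row_zero (mem_sphere_zero_iff_norm.1 y.2)
    rw [← hh]
    simp_rw [actL_row]
    exact integral_mul_left_eq_self (fun g => a (row g 0)) h
  simp_rw [h2]
  rw [integral_const, smul_eq_mul]

theorem toSphere_real_pos : 0 < (volume : Measure E3).toSphere.real Set.univ := by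
  rw [measureReal_def, ENNReal.toReal_pos_iff]
  refine ⟨?_, measure_lt_top _ _⟩
  rw [Measure.measure_univ_pos]
  exact Measure.toSphere_ne_zero _

end Pool.Agent.Helper82.GD
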